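import Pool.Agent.Lib.MP_3e612f_nt.NF.E.Defs
import Mathlib.Probability.Kernel.Condexp
import Mathlib.MeasureTheory.MeasurableSpace.Invariants
import Mathlib.Analysis.InnerProductSpace.MeanErgodic

/-! The ergodic decomposition. -/

set_option autoImplicit false

namespace Pool.Agent.Lib.MP_3e612f_nt.NF

open Finset MeasureTheory Filter Topology ProbabilityTheory

/-- a function measurable for `m` is constant on almost all conditional measures -/
private theorem ed_const {Y : Type} {m : MeasurableSpace Y} [mY : MeasurableSpace Y]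
    [StandardBorelSpace Y] {ν : Measure Y} [IsProbabilityMeasure ν] (hm : m ≤ mY) {u : Y → ℝ}
    (hu : Measurable[m] u) : ∀ᵐ y ∂ν, ∀ᵐ z ∂(condExpKernel ν m y), u y = u z := by
  have h1 : ∀ᵐ p ∂((ν.trim hm) ⊗ₘ condExpKernel ν m), u p.1 = u p.2 := by
    rw [compProd_trim_condExpKernel hm, ae_map_iff]
    · exact Eventually.of_forall fun _ => rfl
    · have h2 : @Measurable Y Y mY m id := measurable_id'' hm
      have h3 : @Measurable Y Y mY mY id := measurable_id
      exact ⟨_, @Measurable.prodMk Y mY Y Y m mY _ _ h2 h3, EventuallyEq.rfl⟩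
    · exact measurableSet_eq_fun (hu.comp measurable_fst) ((hu.mono hm le_rfl).comp measurable_snd)
  exact ae_of_ae_trim hm (Measure.ae_ae_of_ae_compProd h1)

section aux

variable {Y : Type} [MeasurableSpace Y]

/-- a countable π-system -/
private theorem ed_pi [MeasurableSpace.CountablyGenerated Y] :
    ∃ C : Set (Set Y), C.Countable ∧ (∀ B ∈ C, MeasurableSet B) ∧ IsPiSystem C ∧
      ‹MeasurableSpace Y› = MeasurableSpace.generateFrom C := by
  have h1 : MeasurableSpace.generateFrom (generateSetAlgebra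
      (MeasurableSpace.countableGeneratingSet Y)) = ‹MeasurableSpace Y› := by
    rw [generateFrom_generateSetAlgebra_eq, MeasurableSpace.generateFrom_countableGeneratingSet]
  refine ⟨generateSetAlgebra (MeasurableSpace.countableGeneratingSet Y),
    countable_generateSetAlgebra MeasurableSpace.countable_countableGeneratingSet, ?_, ?_, h1.symm⟩
  · intro B hB
    have h2 : MeasurableSet[MeasurableSpace.generateFrom (generateSetAlgebra
        (MeasurableSpace.countableGeneratingSet Y))] B := MeasurableSpace.measurableSet_generateFrom hB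
    rwa [h1] at h2
  · intro s hs t ht _
    exact isSetAlgebra_generateSetAlgebra.inter_mem hs ht

/-- the conditional measures of `S⁻¹ B` and `B` -/
private theorem ed_inv [StandardBorelSpace Y] {S : Y → Y} {ν : Measure Y} [IsProbabilityMeasure ν]
    (h : MeasurePreserving S ν ν) {B : Set Y} (hB : MeasurableSet B) :
    ∀ᵐ y ∂ν, condExpKernel ν (MeasurableSpace.invariants S) y (S ⁻¹' B) =
      condExpKernel ν (MeasurableSpace.invariants S) y B := by
  have hm := MeasurableSpace.invariants_le S
  have hB' : MeasurableSet (S ⁻¹' B) := h.measurable hB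
  have h1 := condExpKernel_ae_eq_condExp (μ := ν) hm hB
  have h2 := condExpKernel_ae_eq_condExp (μ := ν) hm hB'
  have hi : ∀ {A : Set Y}, MeasurableSet A → Integrable (A.indicator fun _ => (1 : ℝ)) ν :=
    fun hA => (integrable_const (1 : ℝ)).indicator hA
  have hint : ∀ {A C : Set Y}, MeasurableSet A → MeasurableSet C →
      ∫ x in A, C.indicator (fun _ => (1 : ℝ)) x ∂ν = ν.real (C ∩ A) := by
    intro A C hA hC
    have h3 := integral_indicator_one (μ := ν.restrict A) hC
    rw [measureReal_restrict_apply hC] at h3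
    exact h3
  have h3 : ν[(S ⁻¹' B).indicator (fun _ => (1 : ℝ)) | MeasurableSpace.invariants S] =ᵐ[ν]
      ν[B.indicator (fun _ => (1 : ℝ)) | MeasurableSpace.invariants S] := by
    refine ae_eq_condExp_of_forall_setIntegral_eq hm (hi hB) ?_ ?_ ?_
    · intro A _ _
      exact integrable_condExp.integrableOn
    · intro A hA _
      have hA' := MeasurableSpace.measurableSet_invariants.1 hA
      rw [setIntegral_condExp hm (hi hB') hA, hint hA'.1 hB', hint hA'.1 hB]
      have h4 : S ⁻¹' B ∩ A = S ⁻¹' (B ∩ A) := by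
        rw [Set.preimage_inter, hA'.2]
      rw [h4, measureReal_def, measureReal_def,
        h.measure_preimage (hB.inter hA'.1).nullMeasurableSet]
    · exact stronglyMeasurable_condExp.aestronglyMeasurable
  filter_upwards [h1, h2, h3] with y hy1 hy2 hy3
  rw [← hy3, ← hy2] at hy1
  rw [measureReal_def, measureReal_def, ENNReal.toReal_eq_toReal_iff' (measure_ne_top _ _)
    (measure_ne_top _ _)] at hy1
  exact hy1.symm

/-- averages of a bounded function converge almost everywhere along a subsequence -/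
private theorem ed_mean {S : Y → Y} {ν : Measure Y} [IsProbabilityMeasure ν]
    (h : MeasurePreserving S ν ν) {φ : Y → ℝ} (hφ : MemLp φ 2 ν) :
    ∃ ns : ℕ → ℕ, StrictMono ns ∧
      ∀ᵐ z ∂ν, ∃ l, Tendsto (fun i => birkhoffAverage ℝ S φ (ns i) z) atTop (𝓝 l) := by
  let U : Lp ℝ 2 ν →L[ℝ] Lp ℝ 2 ν := (Lp.compMeasurePreservingₗᵢ ℝ S h).toContinuousLinearMap
  have hU : ‖U‖ ≤ 1 := LinearIsometry.norm_toContinuousLinearMap_le _
  have h1 := ContinuousLinearMap.tendsto_birkhoffAverage_orthogonalProjection U hU (hφ.toLp φ)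
  obtain ⟨ns, hns, h2⟩ := (tendstoInMeasure_of_tendsto_Lp h1).exists_seq_tendsto_ae
  have hUk : ∀ k : ℕ, ((U : Lp ℝ 2 ν → Lp ℝ 2 ν)^[k] (hφ.toLp φ) : Lp ℝ 2 ν) =ᵐ[ν]
      fun z => φ (S^[k] z) := by
    intro k
    have h3 : (U : Lp ℝ 2 ν → Lp ℝ 2 ν)^[k] (hφ.toLp φ) =
        Lp.compMeasurePreserving S^[k] (h.iterate k) (hφ.toLp φ) := by
      rw [← Lp.compMeasurePreserving_iterate]
      rfl
    rw [h3, Lp.toLp_compMeasurePreserving]
    exact MemLp.coeFn_toLp _
  have hsum : ∀ n : ℕ, ((birkhoffSum U id n (hφ.toLp φ) : Lp ℝ 2 ν) : Y → ℝ) =ᵐ[ν]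
      fun z => birkhoffSum S φ n z := by
    intro n
    induction n with
    | zero =>
      simp only [birkhoffSum_zero]
      exact Lp.coeFn_zero _ _ _
    | succ n ih =>
      rw [birkhoffSum_succ]
      filter_upwards [ih, hUk n, Lp.coeFn_add (birkhoffSum U id n (hφ.toLp φ))
        (id ((U : Lp ℝ 2 ν → Lp ℝ 2 ν)^[n] (hφ.toLp φ)))] with z h4 h5 h6
      rw [h6, Pi.add_apply, h4, birkhoffSum_succ]
      congr 1
  have havg : ∀ n : ℕ, ((birkhoffAverage ℝ U id n (hφ.toLp φ) : Lp ℝ 2 ν) : Y → ℝ) =ᵐ[ν]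
      fun z => birkhoffAverage ℝ S φ n z := by
    intro n
    unfold birkhoffAverage
    filter_upwards [hsum n, Lp.coeFn_smul ((n : ℝ)⁻¹) (birkhoffSum U id n (hφ.toLp φ))]
      with z h4 h5
    rw [h5, Pi.smul_apply, h4]
  refine ⟨ns, hns, ?_⟩
  have hall : ∀ᵐ z ∂ν, ∀ i, ((birkhoffAverage ℝ U id (ns i) (hφ.toLp φ) : Lp ℝ 2 ν) : Y → ℝ) z =
      birkhoffAverage ℝ S φ (ns i) z := ae_all_iff.2 fun i => havg (ns i)
  filter_upwards [h2, hall] with z h4 h5
  refine ⟨_, h4.congr h5⟩

/-- the limit as a function which is measurable for the invariant sets -/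
private theorem ed_lim {S : Y → Y} (hS : Measurable S) {φ : Y → ℝ} (hφ : Measurable φ)
    (hb : ∀ z, |φ z| ≤ 1) {ns : ℕ → ℕ} (hns : StrictMono ns) :
    ∃ u : Y → ℝ, Measurable[MeasurableSpace.invariants S] u ∧
      ∀ z, (∃ l, Tendsto (fun i => birkhoffAverage ℝ S φ (ns i) z) atTop (𝓝 l)) →
        Tendsto (fun i => birkhoffAverage ℝ S φ (ns i) z) atTop (𝓝 (u z)) := by
  have hmeas : ∀ n : ℕ, Measurable (fun z => birkhoffAverage ℝ S φ n z) := by
    intro n
    unfold birkhoffAverage birkhoffSum
    exact (Finset.measurable_sum (range n) fun k _ => hφ.comp (hS.iterate k)).const_smul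
      ((n : ℝ)⁻¹)
  have hdiff : ∀ z, Tendsto (fun i => birkhoffAverage ℝ S φ (ns i) (S z) -
      birkhoffAverage ℝ S φ (ns i) z) atTop (𝓝 0) := by
    intro z
    have h1 : Bornology.IsBounded (Set.range fun k => φ (S^[k] z)) := by
      rw [isBounded_iff_forall_norm_le]
      exact ⟨1, by rintro _ ⟨k, rfl⟩; exact hb _⟩
    exact (tendsto_birkhoffAverage_apply_sub_birkhoffAverage ℝ h1).comp hns.tendsto_atTop
  have hiff : ∀ z l, Tendsto (fun i => birkhoffAverage ℝ S φ (ns i) (S z)) atTop (𝓝 l) ↔
      Tendsto (fun i => birkhoffAverage ℝ S φ (ns i) z) atTop (𝓝 l) := by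
    intro z l
    constructor
    · intro h
      have h1 := h.sub (hdiff z)
      rw [sub_zero] at h1
      refine h1.congr fun i => ?_
      ring
    · intro h
      have h1 := h.add (hdiff z)
      rw [add_zero] at h1
      refine h1.congr fun i => ?_
      ring
  refine ⟨fun z => limUnder atTop (fun i => birkhoffAverage ℝ S φ (ns i) z), ?_, ?_⟩
  · have hu : (fun z => limUnder atTop (fun i => birkhoffAverage ℝ S φ (ns i) z)) ∘ S =
        fun z => limUnder atTop (fun i => birkhoffAverage ℝ S φ (ns i) z) := by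
      funext z
      have h1 : (fun l => Tendsto (fun i => birkhoffAverage ℝ S φ (ns i) (S z)) atTop (𝓝 l)) =
          (fun l => Tendsto (fun i => birkhoffAverage ℝ S φ (ns i) z) atTop (𝓝 l)) :=
        funext fun l => propext (hiff z l)
      exact congrArg Classical.epsilon h1
    rw [MeasurableSpace.measurable_invariants_dom, hu]
    refine ⟨?_, fun _ _ => rfl⟩
    exact (StronglyMeasurable.limUnder fun i => (hmeas (ns i)).stronglyMeasurable).measurable
  · intro z hz
    exact tendsto_nhds_limUnder hz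

/-- almost all conditional measures have the ergodic property for `B` -/
private theorem ed_prod [StandardBorelSpace Y] {S : Y → Y} {ν : Measure Y}
    [IsProbabilityMeasure ν] (h : MeasurePreserving S ν ν) {B : Set Y} (hB : MeasurableSet B) :
    ∀ᵐ y ∂ν, MeasurePreserving S (condExpKernel ν (MeasurableSpace.invariants S) y)
        (condExpKernel ν (MeasurableSpace.invariants S) y) →
      ∀ A, MeasurableSet A → S ⁻¹' A = A →
        (condExpKernel ν (MeasurableSpace.invariants S) y).real (B ∩ A) =
          (condExpKernel ν (MeasurableSpace.invariants S) y).real B *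
            (condExpKernel ν (MeasurableSpace.invariants S) y).real A := by
  have hm := MeasurableSpace.invariants_le S
  have hφm : Measurable (B.indicator fun _ => (1 : ℝ)) := measurable_const.indicator hB
  have hφb : ∀ z, |B.indicator (fun _ => (1 : ℝ)) z| ≤ 1 := by
    intro z
    by_cases hz : z ∈ B
    · rw [Set.indicator_of_mem hz, abs_one]
    · rw [Set.indicator_of_notMem hz, abs_zero]
      exact zero_le_one
  obtain ⟨ns, hns, hlim⟩ := ed_mean h (memLp_indicator_const 2 hB (1 : ℝ)
    (Or.inr (measure_ne_top ν B)))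
  obtain ⟨u, hu, hu'⟩ := ed_lim h.measurable hφm hφb hns
  have h1 : ∀ᵐ z ∂ν, Tendsto (fun i => birkhoffAverage ℝ S (B.indicator fun _ => (1 : ℝ)) (ns i) z)
      atTop (𝓝 (u z)) := by
    filter_upwards [hlim] with z hz
    exact hu' z hz
  have h2 : ∀ᵐ y ∂ν, ∀ᵐ z ∂(condExpKernel ν (MeasurableSpace.invariants S) y),
      Tendsto (fun i => birkhoffAverage ℝ S (B.indicator fun _ => (1 : ℝ)) (ns i) z)
      atTop (𝓝 (u z)) := by
    refine ae_of_ae_trim hm (Measure.ae_ae_of_ae_comp ?_)
    rw [condExpKernel_comp_trim hm]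
    exact h1
  filter_upwards [h2, ed_const hm hu] with y hy1 hy2 hS
  obtain ⟨κ, hκ⟩ : ∃ κ, κ = condExpKernel ν (MeasurableSpace.invariants S) y := ⟨_, rfl⟩
  have hκp : IsProbabilityMeasure κ := by
    rw [hκ]
    infer_instance
  rw [← hκ] at hy1 hy2 hS ⊢
  have key : ∀ A, MeasurableSet A → S ⁻¹' A = A → κ.real (B ∩ A) = u y * κ.real A := by
    intro A hA hSA
    have hSk : ∀ k : ℕ, S^[k] ⁻¹' A = A := by
      intro k
      induction k with
      | zero => rfl
      | succ k ih => rw [Function.iterate_succ, Set.preimage_comp, ih, hSA]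
    have hk : ∀ k : ℕ, ∫ z in A, B.indicator (fun _ => (1 : ℝ)) (S^[k] z) ∂κ = κ.real (B ∩ A) := by
      intro k
      have hBk : MeasurableSet (S^[k] ⁻¹' B) := (hS.iterate k).measurable hB
      have h3 : ∫ z in A, (S^[k] ⁻¹' B).indicator 1 z ∂κ = (κ.restrict A).real (S^[k] ⁻¹' B) :=
        integral_indicator_one hBk
      rw [measureReal_restrict_apply hBk] at h3
      have h4 : S^[k] ⁻¹' B ∩ A = S^[k] ⁻¹' (B ∩ A) := by
        rw [Set.preimage_inter, hSk]
      rw [h4, measureReal_def, (hS.iterate k).measure_preimage (hB.inter hA).nullMeasurableSet]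
        at h3
      exact h3
    have hint : ∀ k : ℕ, Integrable (fun z => B.indicator (fun _ => (1 : ℝ)) (S^[k] z))
        (κ.restrict A) := by
      intro k
      exact (integrable_const (1 : ℝ)).indicator ((hS.iterate k).measurable hB)
    have havg : ∀ n : ℕ, n ≠ 0 → ∫ z in A, birkhoffAverage ℝ S (B.indicator fun _ => (1 : ℝ)) n z
        ∂κ = κ.real (B ∩ A) := by
      intro n hn
      unfold birkhoffAverage birkhoffSum
      rw [integral_smul, integral_finsetSum _ fun k _ => hint k]
      rw [Finset.sum_congr rfl fun k _ => hk k, Finset.sum_const, Finset.card_range, nsmul_eq_mul,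
        smul_eq_mul, inv_mul_cancel_left₀ (Nat.cast_ne_zero.2 hn)]
    have hbd : ∀ (n : ℕ) (z : Y), ‖birkhoffAverage ℝ S (B.indicator fun _ => (1 : ℝ)) n z‖ ≤ 1 := by
      intro n z
      unfold birkhoffAverage birkhoffSum
      rw [norm_smul, norm_inv, Real.norm_natCast]
      rcases Nat.eq_zero_or_pos n with rfl | hn
      · simp
      have h5 : ‖∑ k ∈ range n, B.indicator (fun _ => (1 : ℝ)) (S^[k] z)‖ ≤ n := by
        refine (norm_sum_le _ _).trans ?_
        refine (Finset.sum_le_sum fun k _ => hφb (S^[k] z)).trans ?_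
        rw [Finset.sum_const, Finset.card_range, nsmul_eq_mul, mul_one]
      have hn' : (0 : ℝ) < n := Nat.cast_pos.2 hn
      rw [inv_mul_le_iff₀ hn', mul_one]
      exact h5
    have hmeas : ∀ n : ℕ, Measurable (fun z => birkhoffAverage ℝ S
        (B.indicator fun _ => (1 : ℝ)) n z) := by
      intro n
      unfold birkhoffAverage birkhoffSum
      exact (Finset.measurable_sum (range n) fun k _ =>
        hφm.comp (h.measurable.iterate k)).const_smul ((n : ℝ)⁻¹)
    have hconv : Tendsto (fun i => ∫ z in A, birkhoffAverage ℝ S (B.indicator fun _ => (1 : ℝ))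
        (ns i) z ∂κ) atTop (𝓝 (∫ _ in A, u y ∂κ)) := by
      refine tendsto_integral_of_dominated_convergence (fun _ => (1 : ℝ)) ?_ ?_ ?_ ?_
      · exact fun i => (hmeas (ns i)).aestronglyMeasurable
      · exact integrable_const _
      · exact fun i => Eventually.of_forall fun z => hbd (ns i) z
      · refine ae_restrict_of_ae ?_
        filter_upwards [hy1, hy2] with z hz1 hz2
        rw [hz2]
        exact hz1
    have hconst : Tendsto (fun i => ∫ z in A, birkhoffAverage ℝ S (B.indicator fun _ => (1 : ℝ))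
        (ns i) z ∂κ) atTop (𝓝 (κ.real (B ∩ A))) := by
      refine tendsto_const_nhds.congr' ?_
      filter_upwards [eventually_ge_atTop 1] with i hi
      exact (havg (ns i) (by have := hns.le_apply (x := i); omega)).symm
    have h6 := tendsto_nhds_unique hconst hconv
    rw [h6, integral_const, measureReal_restrict_apply_univ, smul_eq_mul, mul_comm]
  intro A hA hSA
  have h7 := key Set.univ MeasurableSet.univ Set.preimage_univ
  rw [Set.inter_univ, probReal_univ, mul_one] at h7
  rw [key A hA hSA, h7]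

end aux

/-- Almost all conditional measures with respect to the σ-algebra of the invariant sets are invariant: for `φ` in a countable dense set of `C(Y, ℝ)`: `∫ φ(S z) dκ_y = ν[φ ∘ S | I](y) = ν[φ | I](y) = ∫ φ dκ_y` for `ν`-almost all `y` (`condExp_ae_eq_integral_condExpKernel`; `ν[φ ∘ S | I] = ν[φ | I]`:
uniqueness of the conditional expectation, `∫_A φ ∘ S dν = ∫_A φ dν` for invariant `A`). -/
theorem erg_inv {Y : Type} [MetricSpace Y] [CompactSpace Y] [MeasurableSpace Y] [BorelSpace Y] (S : Y → Y) (hS : Continuous S) (ν : Measure Y) [IsProbabilityMeasure ν]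
    (h : MeasurePreserving S ν ν) : ∀ᵐ y ∂ν, MeasurePreserving S (condExpKernel ν (MeasurableSpace.invariants S) y) (condExpKernel ν (MeasurableSpace.invariants S) y) := by
  obtain ⟨C, hC, hCm, hCp, hCg⟩ := ed_pi (Y := Y)
  have h1 : ∀ᵐ y ∂ν, ∀ B ∈ C, condExpKernel ν (MeasurableSpace.invariants S) y (S ⁻¹' B) =
      condExpKernel ν (MeasurableSpace.invariants S) y B :=
    (ae_ball_iff hC).2 fun B hB => ed_inv h (hCm B hB)
  filter_upwards [h1] with y hy
  refine ⟨hS.measurable, ?_⟩
  have hp : IsProbabilityMeasure ((condExpKernel ν (MeasurableSpace.invariants S) y).map S) :=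
    Measure.isProbabilityMeasure_map hS.measurable.aemeasurable
  refine ext_of_generate_finite C hCg hCp (fun B hB => ?_) ?_
  · rw [Measure.map_apply hS.measurable (hCm B hB)]
    exact hy B hB
  · rw [measure_univ, measure_univ]

/-- Almost all conditional measures are ergodic. Let `φ_i` be dense in `C(Y, ℝ)`. Mean ergodic theorem in `L²(ν)`: the averages `A_n φ_i` converge in `L²(ν)` to `ν[φ_i | I]`; along a subsequence (diagonal) for all `i` almost everywhere. So for `ν`-a.e. `y`, for `κ_y`-a.e. `z`: `A_{n_k} φ_i (z) → ∫ φ_i dκ_z`, and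
`∫ φ_i dκ_z = ∫ φ_i dκ_y` for `κ_y`-a.e. `z` (an `I`-measurable function `u` is a.s. constant for a.e. `κ_y`: `∫ |u(z) - u(y)|² dκ_y(z) = 0`, from `∫ u dκ_y = u(y)`, `∫ u² dκ_y = u(y)²` a.e.). So the averages of `φ_i` converge `κ_y`-a.e. along the subsequence to the constant `∫ φ_i dκ_y`, boundedly, hence for an
invariant set `A` and all `i`: `∫_A φ_i dκ_y = ∫_A A_n φ_i dκ_y → κ_y(A) ∫ φ_i dκ_y`; by density for all `φ`, hence `κ_y(A ∩ B) = κ_y(A) κ_y(B)` for all Borel `B`, `B = A`: `κ_y(A) ∈ {0, 1}`. -/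
theorem erg_dec {Y : Type} [MetricSpace Y] [CompactSpace Y] [MeasurableSpace Y] [BorelSpace Y] (S : Y → Y) (hS : Continuous S) (ν : Measure Y) [IsProbabilityMeasure ν]
    (h : MeasurePreserving S ν ν) : ∀ᵐ y ∂ν, Ergodic S (condExpKernel ν (MeasurableSpace.invariants S) y) := by
  obtain ⟨C, hC, hCm, hCp, hCg⟩ := ed_pi (Y := Y)
  have h1 := (ae_ball_iff hC).2 fun B hB => ed_prod h (hCm B hB)
  filter_upwards [erg_inv S hS ν h, h1] with y hy1 hy2
  obtain ⟨κ, hκ⟩ : ∃ κ, κ = condExpKernel ν (MeasurableSpace.invariants S) y := ⟨_, rfl⟩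
  have hκp : IsProbabilityMeasure κ := by
    rw [hκ]
    infer_instance
  rw [← hκ] at hy1 hy2 ⊢
  refine ⟨hy1, ⟨fun A hA hSA => ?_⟩⟩
  have h2 : κ.restrict A = κ A • κ := by
    have hf : IsFiniteMeasure (κ.restrict A) := inferInstance
    refine ext_of_generate_finite C hCg hCp (fun B hB => ?_) ?_
    · have h3 := hy2 B hB hy1 A hA hSA
      rw [Measure.restrict_apply (hCm B hB), Measure.smul_apply, smul_eq_mul]
      rw [measureReal_def, measureReal_def, measureReal_def, ← ENNReal.toReal_mul,
        ENNReal.toReal_eq_toReal_iff' (measure_ne_top _ _)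
        (ENNReal.mul_ne_top (measure_ne_top _ _) (measure_ne_top _ _)), mul_comm] at h3
      exact h3
    · rw [Measure.restrict_apply_univ, Measure.smul_apply, measure_univ, smul_eq_mul, mul_one]
  have h3 : κ A = κ A * κ A := by
    have h4 := congrArg (fun μ : Measure Y => μ A) h2
    simp only [Measure.smul_apply, smul_eq_mul] at h4
    rwa [Measure.restrict_apply_self] at h4
  rw [eventuallyConst_set']
  by_cases h5 : κ A = 0
  · left
    exact ae_eq_empty.2 h5
  · right
    have h6 : κ A = 1 := by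
      have h7 : κ A * 1 = κ A * κ A := by rw [mul_one]; exact h3
      exact ((ENNReal.mul_right_inj h5 (measure_ne_top _ _)).1 h7).symm
    rw [ae_eq_univ, prob_compl_eq_zero_iff hA]
    exact h6

/-- the barycentre of the conditional measures -/
theorem erg_bary {Y : Type} [MetricSpace Y] [CompactSpace Y] [MeasurableSpace Y] [BorelSpace Y] (S : Y → Y) (ν : Measure Y) [IsProbabilityMeasure ν] (φ : C(Y, ℝ)) :
    ∫ y, φ y ∂ν = ∫ y, (∫ z, φ z ∂(condExpKernel ν (MeasurableSpace.invariants S) y)) ∂ν := by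
  have hm := MeasurableSpace.invariants_le S
  have hi : Integrable (fun y => φ y) ν :=
    φ.continuous.integrable_of_hasCompactSupport (HasCompactSupport.of_compactSpace _)
  rw [← integral_condExp hm]
  exact integral_congr_ae (condExp_ae_eq_integral_condExpKernel hm hi)

end Pool.Agent.Lib.MP_3e612f_nt.NF
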