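import Pool.Agent.Lib.MP_3e612f_nt.NF.E.Mix
import Pool.Agent.Lib.MP_3e612f_nt.NF.E.Unif
import Pool.Agent.Lib.MP_3e612f_nt.NF.E.ErgDec

/-! The transfer theorem: almost all ergodic components of the limit measures are modelled by the systems of countably many families. -/

set_option autoImplicit false

namespace Pool.Agent.Lib.MP_3e612f_nt.NF

open Finset MeasureTheory Filter Topology ProbabilityTheory
open Pool.Agent.Lib.MP_3e612f_nt.PI (mc)

section
variable {Y : Type} [MetricSpace Y] [CompactSpace Y] [MeasurableSpace Y] [BorelSpace Y]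

/-- the ergodic component of the point `y`, as a probability measure -/
noncomputable def compPM (S : Y → Y) (ν : Measure Y) [IsProbabilityMeasure ν] (y : Y) : ProbabilityMeasure Y :=
  ⟨condExpKernel ν (MeasurableSpace.invariants S) y, inferInstance⟩

theorem compPM_meas (S : Y → Y) (ν : Measure Y) [IsProbabilityMeasure ν] : Measurable (compPM S ν) := by
  have h1 : Measurable (fun y => (condExpKernel ν (MeasurableSpace.invariants S) y : Measure Y)) :=
    (condExpKernel ν (MeasurableSpace.invariants S)).measurable.mono (MeasurableSpace.invariants_le S) le_rfl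
  exact meas_pm (fun y => condExpKernel ν (MeasurableSpace.invariants S) y) h1 (fun y => inferInstance)

theorem closed_inv (S : Y → Y) (hS : Continuous S) : IsClosed {ν : ProbabilityMeasure Y | MeasurePreserving S (ν : Measure Y) (ν : Measure Y)} := by
  have h1 : {ν : ProbabilityMeasure Y | MeasurePreserving S (ν : Measure Y) (ν : Measure Y)} = {ν : ProbabilityMeasure Y | ν.map hS.measurable.aemeasurable = ν} := by
    ext ν
    simp only [Set.mem_ofPred_eq]
    constructor
    · intro h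
      apply Subtype.ext
      exact h.map_eq
    · intro h
      refine ⟨hS.measurable, ?_⟩
      exact congrArg (fun ν : ProbabilityMeasure Y => (ν : Measure Y)) h
  rw [h1]
  exact isClosed_eq (ProbabilityMeasure.continuous_map hS) continuous_id

theorem pm_cont (φ : C(Y, ℝ)) : Continuous fun ν : ProbabilityMeasure Y => ∫ y, φ y ∂(ν : Measure Y) := by
  have h := ProbabilityMeasure.continuous_integral_boundedContinuousFunction (BoundedContinuousFunction.mkOfCompact φ)
  exact h

theorem erg_modl (S : Y → Y) (hS : Continuous S) (g : Y → ℂ) (hg : Continuous g) (𝓕 : ℕ → Famc) (ε : ℝ) (hε : 0 < ε) (ν : Measure Y) [IsProbabilityMeasure ν] (hν : MeasurePreserving S ν ν)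
    (H : ∀ᵐ y ∂ν, ∃ c, ∃ z ∈ ⋂ j, (𝓕 c).GG j, ∃ lam : Measure ((𝓕 c).X × Y), JoinLe ((𝓕 c).Φ z) S (condExpKernel ν (MeasurableSpace.invariants S) y) g (𝓕 c).f ε lam) :
    Modl S g ν (2 * ε) := by
  have hop := opens_meas Y
  have hm := compPM_meas S ν
  have hp : IsProbabilityMeasure (ν.map (compPM S ν)) := Measure.isProbabilityMeasure_map hm.aemeasurable
  refine mix_modl S hS g hg 𝓕 ε hε (ν.map (compPM S ν)) ?_ ?_ ⟨ν, inferInstance⟩ ?_
  · refine le_antisymm prob_le_one ?_
    refine le_trans ?_ (Measure.le_map_apply hm.aemeasurable _)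
    have h2 : ν (compPM S ν ⁻¹' {ν | ∃ c, ∃ z ∈ ⋂ j, (𝓕 c).GG j, ν ∈ DSet ((𝓕 c).Φ z) S g (𝓕 c).f ε})ᶜ = 0 := by
      have h3 : ∀ᵐ y ∂ν, y ∈ compPM S ν ⁻¹' {ν | ∃ c, ∃ z ∈ ⋂ j, (𝓕 c).GG j, ν ∈ DSet ((𝓕 c).Φ z) S g (𝓕 c).f ε} := H
      exact mem_ae_iff.1 h3
    have h3 := measure_union_le (μ := ν) (compPM S ν ⁻¹' {ν | ∃ c, ∃ z ∈ ⋂ j, (𝓕 c).GG j, ν ∈ DSet ((𝓕 c).Φ z) S g (𝓕 c).f ε})
      (compPM S ν ⁻¹' {ν | ∃ c, ∃ z ∈ ⋂ j, (𝓕 c).GG j, ν ∈ DSet ((𝓕 c).Φ z) S g (𝓕 c).f ε})ᶜ
    rw [Set.union_compl_self, measure_univ, h2, add_zero] at h3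
    exact h3
  · have h1 : ∀ᵐ y ∂ν, MeasurePreserving S ((compPM S ν y : ProbabilityMeasure Y) : Measure Y) ((compPM S ν y : ProbabilityMeasure Y) : Measure Y) := erg_inv S hS ν hν
    exact (ae_map_iff hm.aemeasurable (closed_inv S hS).measurableSet).2 h1
  · intro φ
    rw [integral_map hm.aemeasurable]
    · exact erg_bary S ν φ
    · exact (pm_cont φ).aestronglyMeasurable

end

end Pool.Agent.Lib.MP_3e612f_nt.NF
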