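import Pool.Agent.Lib.MP_3e612f_nt.NF.E.Opens

/-! Closed convex sets of measures contain barycentres. -/

set_option autoImplicit false

namespace Pool.Agent.Lib.MP_3e612f_nt.NF

open MeasureTheory Filter Topology

private theorem bary_cont {Y : Type} [MetricSpace Y] [CompactSpace Y] [MeasurableSpace Y]
    [BorelSpace Y] (φ : C(Y, ℝ)) :
    Continuous fun ν : ProbabilityMeasure Y => ∫ y, φ y ∂(ν : Measure Y) := by
  rw [continuous_iff_continuousAt]
  intro ν
  exact ProbabilityMeasure.tendsto_iff_forall_integral_tendsto.1 tendsto_id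
    (BoundedContinuousFunction.mkOfCompact φ)

private theorem bary_int {Y : Type} [MetricSpace Y] [CompactSpace Y] [MeasurableSpace Y]
    [BorelSpace Y] (φ : C(Y, ℝ)) (ν : Measure Y) [IsFiniteMeasure ν] :
    Integrable (fun y => φ y) ν :=
  (BoundedContinuousFunction.mkOfCompact φ).integrable ν

/-- convex combinations -/
private theorem bary_comb {Y : Type} [MetricSpace Y] [CompactSpace Y] [MeasurableSpace Y]
    [BorelSpace Y] (ν₁ ν₂ : ProbabilityMeasure Y) {a b : ℝ} (ha : 0 ≤ a) (hb : 0 ≤ b)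
    (hab : a + b = 1) : ∃ ν : ProbabilityMeasure Y, ∀ φ : C(Y, ℝ), ∫ y, φ y ∂(ν : Measure Y) =
      a * ∫ y, φ y ∂(ν₁ : Measure Y) + b * ∫ y, φ y ∂(ν₂ : Measure Y) := by
  refine ⟨⟨ENNReal.ofReal a • (ν₁ : Measure Y) + ENNReal.ofReal b • (ν₂ : Measure Y), ⟨?_⟩⟩,
    fun φ => ?_⟩
  · rw [Measure.add_apply, Measure.smul_apply, Measure.smul_apply, measure_univ, measure_univ,
      smul_eq_mul, smul_eq_mul, mul_one, mul_one, ← ENNReal.ofReal_add ha hb, hab,
      ENNReal.ofReal_one]
  · change ∫ y, φ y ∂(ENNReal.ofReal a • (ν₁ : Measure Y) + ENNReal.ofReal b • (ν₂ : Measure Y)) =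
      _
    rw [integral_add_measure ((bary_int φ _).smul_measure ENNReal.ofReal_ne_top)
      ((bary_int φ _).smul_measure ENNReal.ofReal_ne_top), integral_smul_measure,
      integral_smul_measure, ENNReal.toReal_ofReal ha, ENNReal.toReal_ofReal hb, smul_eq_mul,
      smul_eq_mul]

/-- `D` is nonempty. Approximate `f` by simple functions with values in `D`: `SimpleFunc.approxOn f hf D ν₀ h` (for the metric on `ProbabilityMeasure Y`: `TopologicalSpace.metrizableSpaceMetric`, the space is compact, hence separable; `opens_meas`) converges to `f ω` for every `ω` with `f ω ∈ D`.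
For a simple function `s` with values in `D` there is `ν_s ∈ D` with `∫ φ dν_s = ∫ (∫ φ d(s ω)) dρ` for all `φ` (a finite convex combination: induction on the number of values with `ConvPM`; or: induction over finsets with normalised weights).
A subsequence of `ν_{s_n}` converges (`CompactSpace (ProbabilityMeasure Y)`, metrizable) to some `ν ∈ D` and for every `φ`, `∫ φ dν = lim ∫∫ φ d(s_n ω) dρ = ∫∫ φ d(f ω) dρ` (dominated convergence, `ν ↦ ∫ φ dν` is continuous). -/
theorem bary_mem {Ω Y : Type} [MeasurableSpace Ω] [MetricSpace Y] [CompactSpace Y] [MeasurableSpace Y] [BorelSpace Y] (ρ : Measure Ω) [IsProbabilityMeasure ρ]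
    (f : Ω → ProbabilityMeasure Y) (hf : Measurable f) (D : Set (ProbabilityMeasure Y)) (hD : IsClosed D) (hc : ConvPM D) (hfD : ∀ᵐ ω ∂ρ, f ω ∈ D) :
    ∃ ν ∈ D, IsBary ρ f ν := by
  classical
  have hom := opens_meas Y
  have hDc : IsCompact D := hD.isCompact
  have hmeas : ∀ φ : C(Y, ℝ), Measurable fun ω => ∫ y, φ y ∂(f ω : Measure Y) := fun φ =>
    (bary_cont φ).measurable.comp hf
  have key := hDc.inter_iInter_nonempty
    (fun φ : C(Y, ℝ) => {ν : ProbabilityMeasure Y | ∫ y, φ y ∂(ν : Measure Y) =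
      ∫ ω, (∫ y, φ y ∂(f ω : Measure Y)) ∂ρ})
    (fun φ => isClosed_eq (bary_cont φ) continuous_const) ?_
  · obtain ⟨ν, hν, hν'⟩ := key
    exact ⟨ν, hν, fun φ => Set.mem_iInter.1 hν' φ⟩
  intro u
  -- the evaluation at the functions of `u`
  let Θ : ProbabilityMeasure Y → (u → ℝ) := fun ν i => ∫ y, (i : C(Y, ℝ)) y ∂(ν : Measure Y)
  have hΘ : Continuous Θ := continuous_pi fun i => bary_cont _
  have hK : IsCompact (Θ '' D) := hDc.image hΘ
  have hconv : Convex ℝ (Θ '' D) := by
    rintro _ ⟨ν₁, h₁, rfl⟩ _ ⟨ν₂, h₂, rfl⟩ a b ha hb hab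
    obtain ⟨ν, hν⟩ := bary_comb ν₁ ν₂ ha hb hab
    refine ⟨ν, hc ν₁ h₁ ν₂ h₂ ν a ha (by linarith) (fun φ => ?_), ?_⟩
    · rw [hν φ, ← hab]
      ring
    · funext i
      exact hν _
  have hae : ∀ᵐ ω ∂ρ, Θ (f ω) ∈ Θ '' D := hfD.mono fun ω hω => Set.mem_image_of_mem _ hω
  have hint : Integrable (fun ω => Θ (f ω)) ρ := by
    obtain ⟨C, hC⟩ := hK.isBounded.exists_norm_le
    have hm : Measurable fun ω => Θ (f ω) := measurable_pi_lambda _ fun i => hmeas _
    exact Integrable.of_bound hm.aestronglyMeasurable C (hae.mono fun ω hω => hC _ hω)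
  obtain ⟨ν, hν, hν'⟩ := hconv.integral_mem hK.isClosed hae hint
  refine ⟨ν, hν, Set.mem_iInter₂.2 fun φ hφ => ?_⟩
  have h1 := congrFun hν' ⟨φ, hφ⟩
  have h2 := ContinuousLinearMap.integral_comp_comm
    (ContinuousLinearMap.proj (R := ℝ) (φ := fun _ : u => ℝ) ⟨φ, hφ⟩) hint
  exact h1.trans h2.symm

/-- uniqueness: a probability measure on a compact metric space is determined by the integrals of the continuous functions -/
theorem bary_unique {Ω Y : Type} [MeasurableSpace Ω] [MetricSpace Y] [CompactSpace Y] [MeasurableSpace Y] [BorelSpace Y] (ρ : Measure Ω)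
    (f : Ω → ProbabilityMeasure Y) (ν ν' : ProbabilityMeasure Y) (h : IsBary ρ f ν) (h' : IsBary ρ f ν') : ν = ν' := by
  have key : (ν : Measure Y) = (ν' : Measure Y) :=
    ext_of_forall_integral_eq_of_IsFiniteMeasure fun φ =>
      (h φ.toContinuousMap).trans (h' φ.toContinuousMap).symm
  exact Subtype.ext key

end Pool.Agent.Lib.MP_3e612f_nt.NF
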