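import Pool.Agent.Lib.MP_3e612f_nt.NF.E.Defs

/-! Inner approximation of K_σδ sets. -/

set_option autoImplicit false

namespace Pool.Agent.Lib.MP_3e612f_nt.NF

open MeasureTheory Filter Topology

theorem cap_step {X Z : Type} [MeasurableSpace X] (ρ : Measure X) [IsFiniteMeasure ρ]
    (D : ℕ → Set (X × Z)) (hD : Monotone D) (δ : ENNReal) (hδ : δ ≠ 0) (S : Set (X × Z))
    (hS : S ⊆ ⋃ i, D i) :
    ∃ l : ℕ, ρ (Prod.fst '' S) ≤ ρ (Prod.fst '' (S ∩ D l)) + δ := by
  have h1 : Prod.fst '' S = ⋃ l, Prod.fst '' (S ∩ D l) := by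
    rw [← Set.image_iUnion, ← Set.inter_iUnion, Set.inter_eq_left.2 hS]
  have h2 : Monotone fun l => Prod.fst '' (S ∩ D l) := fun a b hab =>
    Set.image_mono (Set.inter_subset_inter_right _ (hD hab))
  have h3 : ρ (Prod.fst '' S) = ⨆ l, ρ (Prod.fst '' (S ∩ D l)) := by
    rw [h1]
    exact h2.measure_iUnion
  by_contra hne
  push Not at hne
  have h4 : ρ (Prod.fst '' S) + δ ≤ ρ (Prod.fst '' S) := by
    nth_rewrite 1 [h3]
    rw [ENNReal.iSup_add]
    exact iSup_le fun l => (hne l).le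
  exact absurd h4 (not_le.2 (ENNReal.lt_add_right (measure_ne_top ρ _) hδ))

theorem cap_inter {X Z : Type} [TopologicalSpace X] [T2Space X] [TopologicalSpace Z] [T2Space Z]
    (K : ℕ → Set (X × Z)) (hK : ∀ j, IsCompact (K j)) (hd : Antitone K) :
    Prod.fst '' (⋂ j, K j) = ⋂ j, Prod.fst '' (K j) := by
  apply Set.Subset.antisymm
  · exact Set.image_iInter_subset _ _
  · intro x hx
    have hx' : ∀ j, ∃ q ∈ K j, q.1 = x := fun j => Set.mem_iInter.1 hx j
    have hcl : IsClosed (Prod.fst ⁻¹' {x} : Set (X × Z)) := isClosed_singleton.preimage continuous_fst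
    have hne := IsCompact.nonempty_iInter_of_directed_nonempty_isCompact_isClosed
      (fun j => K j ∩ Prod.fst ⁻¹' {x})
      (directed_of_isDirected_le fun a b hab => Set.inter_subset_inter_left _ (hd hab))
      (fun j => by
        obtain ⟨q, h1, h2⟩ := hx' j
        exact ⟨q, h1, h2⟩)
      (fun j => (hK j).inter_right hcl) (fun j => (hK j).isClosed.inter hcl)
    obtain ⟨q, hq⟩ := hne
    rw [Set.mem_iInter] at hq
    exact ⟨q, Set.mem_iInter.2 fun j => (hq j).1, (hq 0).2⟩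

/-- Write `A = ⋂ j, ⋃ l, C j l`. Choose `l 0, l 1, ..` one after the other with `ρ (fst '' (A ∩ ⋂_{i ≤ j} C i (l i))) ≥ ρ (fst '' (A ∩ ⋂_{i < j} C i (l i))) - ε 2^{-j-1}` (the sets `fst '' (A ∩ ⋂_{i < j} C i (l i) ∩ C j l)` increase with `l` and their union is
`fst '' (A ∩ ⋂_{i<j} ..)`; `Monotone.measure_iUnion` holds for arbitrary sets). `K_j = ⋂_{i ≤ j} C i (l i)` is compact and decreasing, `fst '' (⋂ j, K_j) = ⋂ j, fst '' K_j` (compactness), so `ρ (fst '' ⋂ K_j) = lim ρ (fst '' K_j)` (closed, hence measurable sets; continuity from above, finite measure)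
`≥ ρ (fst '' A) - ε`. (If `C j (l j)` is empty for some `j` everything is empty.) -/
theorem ksd_inner {X Z : Type} [TopologicalSpace X] [T2Space X] [MeasurableSpace X] [OpensMeasurableSpace X] [TopologicalSpace Z] [T2Space Z]
    (ρ : Measure X) [IsFiniteMeasure ρ] (C : ℕ → ℕ → Set (X × Z)) (hC : ∀ j l, IsCompact (C j l)) (hm : ∀ j, Monotone (C j)) (ε : ENNReal) (hε : ε ≠ 0) :
    ∃ l : ℕ → ℕ, ρ (Prod.fst '' (⋂ j, ⋃ i, C j i)) ≤ ρ (Prod.fst '' (⋂ j, C j (l j))) + ε := by
  classical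
  obtain ⟨δ, hδ0, hδs⟩ := ENNReal.exists_pos_sum_of_countable hε ℕ
  have hc : ∀ (j : ℕ) (S : Set (X × Z)), ∃ l : ℕ, S ⊆ (⋃ i, C j i) →
      ρ (Prod.fst '' S) ≤ ρ (Prod.fst '' (S ∩ C j l)) + δ j := by
    intro j S
    by_cases hS : S ⊆ ⋃ i, C j i
    · obtain ⟨l, hl⟩ := cap_step ρ (C j) (hm j) (δ j)
        (ENNReal.coe_ne_zero.2 (hδ0 j).ne') S hS
      exact ⟨l, fun _ => hl⟩
    · exact ⟨0, fun h => absurd h hS⟩
  choose c hc using hc
  let A : Set (X × Z) := ⋂ j, ⋃ i, C j i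
  let S : ℕ → Set (X × Z) := fun j => Nat.rec A (fun j T => T ∩ C j (c j T)) j
  have hS0 : S 0 = A := rfl
  have hSs : ∀ j, S (j + 1) = S j ∩ C j (c j (S j)) := fun j => rfl
  have hSA : ∀ j, S j ⊆ A := by
    intro j
    induction j with
    | zero => exact subset_of_eq hS0
    | succ j ih => rw [hSs]; exact Set.inter_subset_left.trans ih
  have hsum : ∀ j, ρ (Prod.fst '' A) ≤ ρ (Prod.fst '' (S j)) +
      ∑ i ∈ Finset.range j, (δ i : ENNReal) := by
    intro j
    induction j with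
    | zero => simp [hS0]
    | succ j ih =>
      have h1 := hc j (S j) ((hSA j).trans (Set.iInter_subset _ j))
      rw [← hSs] at h1
      rw [Finset.sum_range_succ]
      calc ρ (Prod.fst '' A) ≤ ρ (Prod.fst '' (S j)) + ∑ i ∈ Finset.range j, (δ i : ENNReal) := ih
        _ ≤ (ρ (Prod.fst '' (S (j + 1))) + δ j) + ∑ i ∈ Finset.range j, (δ i : ENNReal) := by
          gcongr
        _ = _ := by rw [add_assoc, add_comm (δ j : ENNReal)]
  have hsum2 : ∀ j, ρ (Prod.fst '' A) ≤ ρ (Prod.fst '' (S j)) + ε := fun j =>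
    (hsum j).trans (by
      gcongr
      exact (ENNReal.sum_le_tsum _).trans hδs.le)
  refine ⟨fun j => c j (S j), ?_⟩
  let K : ℕ → Set (X × Z) := fun j => {q | ∀ i ≤ j, q ∈ C i (c i (S i))}
  have hKcl : ∀ j, IsClosed (K j) := by
    intro j
    have : K j = ⋂ i, ⋂ (_ : i ≤ j), C i (c i (S i)) := by
      ext q
      simp [K]
    rw [this]
    exact isClosed_iInter fun i => isClosed_iInter fun _ => (hC i _).isClosed
  have hKc : ∀ j, IsCompact (K j) := fun j =>
    (hC 0 (c 0 (S 0))).of_isClosed_subset (hKcl j) fun q hq => hq 0 (Nat.zero_le j)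
  have hKa : Antitone K := fun a b hab q hq i hi => hq i (hi.trans hab)
  have hKi : (⋂ j, K j) = ⋂ j, C j (c j (S j)) := by
    ext q
    simp only [Set.mem_iInter, K, Set.mem_ofPred_eq]
    exact ⟨fun h j => h j j le_rfl, fun h j i _ => h i⟩
  have hSC : ∀ j i, i < j → S j ⊆ C i (c i (S i)) := by
    intro j
    induction j with
    | zero => intro i hi; exact absurd hi (Nat.not_lt_zero i)
    | succ j ih =>
      intro i hi
      rw [hSs]
      rcases Nat.lt_succ_iff_lt_or_eq.1 hi with h | h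
      · exact Set.inter_subset_left.trans (ih i h)
      · subst h
        exact Set.inter_subset_right
  have hSK : ∀ j, S (j + 1) ⊆ K j := fun j q hq i hi => hSC (j + 1) i (Nat.lt_succ_of_le hi) hq
  have hmeas : ρ (Prod.fst '' (⋂ j, K j)) = ⨅ j, ρ (Prod.fst '' (K j)) := by
    rw [cap_inter K hKc hKa]
    refine Antitone.measure_iInter (fun a b hab => Set.image_mono (hKa hab)) (fun j => ?_)
      ⟨0, measure_ne_top ρ _⟩
    exact (((hKc j).image continuous_fst).isClosed.measurableSet).nullMeasurableSet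
  rw [← hKi, hmeas, ENNReal.iInf_add]
  refine le_iInf fun j => (hsum2 (j + 1)).trans ?_
  gcongr
  exact hSK j

end Pool.Agent.Lib.MP_3e612f_nt.NF
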