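import Pool.Agent.Lib.MP_3e612f_nt.NF.E.JoinZA

/-! Joinings with the systems of a family: a closed condition in the parameter and the measures. -/

set_option autoImplicit false

namespace Pool.Agent.Lib.MP_3e612f_nt.NF

open MeasureTheory Filter Topology

/-- Invariance under `Φ z × S`: `∫ φ (Φ z x, S y) dlam = ∫ φ dlam` for all `φ : C(X × Y, ℝ)`. The function `(z, lam) ↦ ∫ φ (Φ z x, S y) dlam` is continuous: `z ↦ (fun p => φ (Φ z p.1, S p.2)) ∈ C(X × Y, ℝ)` is continuous (`ContinuousMap.curry`) and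
`(h, lam) ↦ ∫ h dlam` is continuous on `C(X × Y, ℝ) × ProbabilityMeasure (X × Y)` (`|∫ h dlam - ∫ h' dlam'| ≤ ‖h - h'‖ + |∫ h' dlam - ∫ h' dlam'|`). The other conditions as in `join_closed`. -/
theorem joinz_closed {Z X Y : Type} [MetricSpace Z] [MetricSpace X] [CompactSpace X] [MeasurableSpace X] [BorelSpace X]
    [MetricSpace Y] [CompactSpace Y] [MeasurableSpace Y] [BorelSpace Y]
    (Φ : Z → X → X) (hΦ : Continuous fun q : Z × X => Φ q.1 q.2) (S : Y → Y) (hS : Continuous S) (g : Y → ℂ) (hg : Continuous g) (f : X → ℂ) (hf : Continuous f) (ε : ℝ) :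
    IsClosed {q : ProbabilityMeasure Y × (Z × ProbabilityMeasure (X × Y)) | JoinLe (Φ q.2.1) S (q.1 : Measure Y) g f ε (q.2.2 : Measure (X × Y))} := by
  have hG : ∀ z, Continuous (Prod.map (Φ z) S) := fun z =>
    ((hΦ.comp (continuous_const.prodMk continuous_id)).prodMap hS)
  let G₀ : C(X × Y, ℝ) := ⟨fun p => ‖g p.2 - f p.1‖,
    ((hg.comp continuous_snd).sub (hf.comp continuous_fst)).norm⟩
  have key : {q : ProbabilityMeasure Y × (Z × ProbabilityMeasure (X × Y)) |
      JoinLe (Φ q.2.1) S (q.1 : Measure Y) g f ε (q.2.2 : Measure (X × Y))} =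
      ((⋂ φ : C(X × Y, ℝ), {q | ∫ p, φ (Prod.map (Φ q.2.1) S p) ∂(q.2.2 : Measure (X × Y)) =
          ∫ p, φ p ∂(q.2.2 : Measure (X × Y))}) ∩
        (⋂ φ : C(Y, ℝ), {q | ∫ p : X × Y, φ p.2 ∂(q.2.2 : Measure (X × Y)) =
          ∫ y, φ y ∂(q.1 : Measure Y)})) ∩
        {q | ∫ p, G₀ p ∂(q.2.2 : Measure (X × Y)) ≤ ε} := by
    ext q
    simp only [Set.mem_inter_iff, Set.mem_iInter, Set.mem_setOf_eq]
    constructor
    · rintro ⟨-, h1, h2, h3⟩
      exact ⟨⟨(jza_mp _ (hG _)).1 h1, (jza_map _ _ continuous_snd).1 h2⟩, h3⟩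
    · rintro ⟨⟨h1, h2⟩, h3⟩
      exact ⟨inferInstance, (jza_mp _ (hG _)).2 h1, (jza_map _ _ continuous_snd).2 h2, h3⟩
  rw [key]
  refine IsClosed.inter (IsClosed.inter (isClosed_iInter fun φ => ?_)
    (isClosed_iInter fun φ => ?_)) ?_
  · refine isClosed_eq ?_ ?_
    · let F : C(Z × (X × Y), ℝ) := ⟨fun q => φ (Prod.map (Φ q.1) S q.2), by
        refine φ.continuous.comp (Continuous.prodMk ?_ (hS.comp
          (continuous_snd.comp continuous_snd)))
        exact hΦ.comp (continuous_fst.prodMk (continuous_fst.comp continuous_snd))⟩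
      have h1 := jza_cont (fun z => F.curry z) F.curry.continuous
      exact h1.comp continuous_snd
    · exact (ProbabilityMeasure.continuous_integral_continuousMap φ).comp
        (continuous_snd.comp continuous_snd)
  · refine isClosed_eq ?_ ?_
    · let φ' : C(X × Y, ℝ) := φ.comp ⟨Prod.snd, continuous_snd⟩
      exact (ProbabilityMeasure.continuous_integral_continuousMap φ').comp
        (continuous_snd.comp continuous_snd)
    · exact (ProbabilityMeasure.continuous_integral_continuousMap φ).comp continuous_fst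
  · exact isClosed_le ((ProbabilityMeasure.continuous_integral_continuousMap G₀).comp
      (continuous_snd.comp continuous_snd)) continuous_const

end Pool.Agent.Lib.MP_3e612f_nt.NF
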