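import Pool.Agent.Lib.MP_3e612f_nt.NF.E.Defs

/-! The Giry σ-algebra on the probability measures of a compact metric space contains the open sets. -/

set_option autoImplicit false

namespace Pool.Agent.Lib.MP_3e612f_nt.NF

open MeasureTheory Filter Topology
open scoped NNReal BoundedContinuousFunction

theorem Opens_sc (Y : Type) [MetricSpace Y] [CompactSpace Y] [MeasurableSpace Y] [BorelSpace Y] :
    SecondCountableTopology (ProbabilityMeasure Y) := by
  let _ : MetricSpace (ProbabilityMeasure Y) :=
    TopologicalSpace.metrizableSpaceMetric (ProbabilityMeasure Y)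
  infer_instance

theorem Opens_meas_g (Y : Type) [MetricSpace Y] [CompactSpace Y] [MeasurableSpace Y] [BorelSpace Y]
    (f : Y →ᵇ ℝ≥0) :
    Measurable (fun μ : ProbabilityMeasure Y => μ.toFiniteMeasure.testAgainstNN f) := by
  have h1 : Measurable (fun y : Y => ((f y : ℝ≥0) : ENNReal)) :=
    f.continuous.measurable.coe_nnreal_ennreal
  have h2 : Measurable (fun μ : ProbabilityMeasure Y => ∫⁻ y, ((f y : ℝ≥0) : ENNReal) ∂(μ : Measure Y)) :=
    (Measure.measurable_lintegral h1).comp measurable_subtype_coe
  exact h2.ennreal_toNNReal

theorem Opens_top (Y : Type) [MetricSpace Y] [CompactSpace Y] [MeasurableSpace Y] [BorelSpace Y] :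
    (inferInstance : TopologicalSpace (ProbabilityMeasure Y)) =
      ⨅ f : Y →ᵇ ℝ≥0, TopologicalSpace.induced
        (fun μ : ProbabilityMeasure Y => μ.toFiniteMeasure.testAgainstNN f) inferInstance := by
  have h1 : (inferInstance : TopologicalSpace (ProbabilityMeasure Y)) =
      TopologicalSpace.induced (ProbabilityMeasure.toFiniteMeasure)
        (TopologicalSpace.induced (FiniteMeasure.toWeakDualBCNN)
          (TopologicalSpace.induced (fun (x : WeakDual ℝ≥0 (Y →ᵇ ℝ≥0)) (y : Y →ᵇ ℝ≥0) => x y)
            Pi.topologicalSpace)) := rfl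
  rw [h1, induced_compose, induced_compose, Pi.topologicalSpace, induced_iInf]
  exact iInf_congr fun f => induced_compose

/-- `ν ↦ ∫ φ dν` is measurable for continuous `φ` (e.g. `Measurable.lintegral..`/`StronglyMeasurable.integral`, or `Measure.measurable_lintegral` for the positive and negative parts). The topology is generated by the sets `{ν | ∫ φ dν ∈ U}`, `U` open (`ProbabilityMeasure.tendsto_iff_forall_integral_tendsto`,
or directly by definition: induced from the weak dual, `FiniteMeasure.continuous_iff_forall..`), and the space is compact metrizable, hence second countable: every open set is a countable union of finite intersections of such sets. -/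
theorem opens_meas (Y : Type) [MetricSpace Y] [CompactSpace Y] [MeasurableSpace Y] [BorelSpace Y] : OpensMeasurableSpace (ProbabilityMeasure Y) := by
  have hsc := Opens_sc Y
  have ht : (inferInstance : TopologicalSpace (ProbabilityMeasure Y)) =
      TopologicalSpace.generateFrom (⋃ f : Y →ᵇ ℝ≥0, {s | IsOpen[TopologicalSpace.induced
        (fun μ : ProbabilityMeasure Y => μ.toFiniteMeasure.testAgainstNN f) inferInstance] s}) := by
    exact (Opens_top Y).trans (generateFrom_iUnion_isOpen _).symm
  have hb := borel_eq_generateFrom_of_subbasis ht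
  refine ⟨?_⟩
  rw [hb]
  refine MeasurableSpace.generateFrom_le fun s hs => ?_
  obtain ⟨f, hf⟩ := Set.mem_iUnion.1 hs
  obtain ⟨U, hU, rfl⟩ := isOpen_induced_iff.1 hf
  exact Opens_meas_g Y f hU.measurableSet

/-- a measurable map into the measures whose values are probability measures -/
theorem meas_pm {Ω Y : Type} [MeasurableSpace Ω] [MeasurableSpace Y] (f : Ω → Measure Y) (hf : Measurable f) (h : ∀ ω, IsProbabilityMeasure (f ω)) :
    Measurable (fun ω => (⟨f ω, h ω⟩ : ProbabilityMeasure Y)) :=
  hf.subtype_mk

end Pool.Agent.Lib.MP_3e612f_nt.NF
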