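import Pool.Agent.Lib.MP_3e612f_nt.NF.E.Cap
import Pool.Agent.Lib.MP_3e612f_nt.NF.E.JoinZ
import Pool.Agent.Lib.MP_3e612f_nt.NF.E.Opens

/-! Compact sets of parameters suffice, up to a set of small measure. -/

set_option autoImplicit false

namespace Pool.Agent.Lib.MP_3e612f_nt.NF

open MeasureTheory Filter Topology

/-- Each open set `GG j` is an increasing union of closed sets `F j l` (`IsOpen.exists_iUnion_isClosed`), `Z` is the increasing union of the compact sets `K l` (`compactCovering Z l`). Apply `ksd_inner` to `ProbabilityMeasure Y` and `Z × ProbabilityMeasure (X × Y)` with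
`C j l = {(ν, z, lam) | JoinLe (Φ z) S ν g f ε lam, z ∈ F j l ∩ K l}` (`joinz_closed`; closed subset of the compact set `univ ×ˢ (K l ×ˢ univ)`). The intersection `⋂ j, C j (l j)` is compact, `U` = its image under `(ν, z, lam) ↦ z`: compact, contained in `⋂ j, GG j`. -/
theorem cap_fam {Z X Y : Type} [MetricSpace Z] [SigmaCompactSpace Z] [MetricSpace X] [CompactSpace X] [MeasurableSpace X] [BorelSpace X]
    [MetricSpace Y] [CompactSpace Y] [MeasurableSpace Y] [BorelSpace Y]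
    (Φ : Z → X → X) (hΦ : Continuous fun q : Z × X => Φ q.1 q.2) (S : Y → Y) (hS : Continuous S) (g : Y → ℂ) (hg : Continuous g) (f : X → ℂ) (hf : Continuous f) (ε : ℝ)
    (GG : ℕ → Set Z) (hG : ∀ j, IsOpen (GG j)) (ρ : Measure (ProbabilityMeasure Y)) [IsFiniteMeasure ρ] (δ : ENNReal) (hδ : δ ≠ 0) :
    ∃ U : Set Z, IsCompact U ∧ U ⊆ (⋂ j, GG j) ∧
      ρ {ν | ∃ z ∈ ⋂ j, GG j, ν ∈ DSet (Φ z) S g f ε} ≤ ρ {ν | ∃ z ∈ U, ν ∈ DSet (Φ z) S g f ε} + δ := by
  have _ := opens_meas Y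
  choose F hFc hFs hFu hFm using fun j => (hG j).exists_iUnion_isClosed
  set K : ℕ → Set Z := compactCovering Z with hK
  have hKc : ∀ l, IsCompact (K l) := isCompact_compactCovering Z
  have hKm : Monotone K := fun a b h => compactCovering_subset Z h
  have hJ := joinz_closed Φ hΦ S hS g hg f hf ε
  set C : ℕ → ℕ → Set (ProbabilityMeasure Y × (Z × ProbabilityMeasure (X × Y))) := fun j l =>
    {q | JoinLe (Φ q.2.1) S (q.1 : Measure Y) g f ε (q.2.2 : Measure (X × Y)) ∧
      q.2.1 ∈ F j l ∩ K l} with hCdef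
  have hcl : ∀ j l, IsClosed (C j l) := by
    intro j l
    refine hJ.inter ?_
    exact ((hFc j l).inter (hKc l).isClosed).preimage (continuous_fst.comp continuous_snd)
  have hC : ∀ j l, IsCompact (C j l) := by
    intro j l
    refine IsCompact.of_isClosed_subset (isCompact_univ.prod ((hKc l).prod isCompact_univ))
      (hcl j l) ?_
    rintro q ⟨-, hq⟩
    exact ⟨Set.mem_univ _, hq.2, Set.mem_univ _⟩
  have hm : ∀ j, Monotone (C j) := by
    rintro j a b hab q ⟨h1, h2, h3⟩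
    exact ⟨h1, hFm j hab h2, hKm hab h3⟩
  obtain ⟨l, hl⟩ := ksd_inner ρ C hC hm δ hδ
  have hI : IsCompact (⋂ j, C j (l j)) :=
    IsCompact.of_isClosed_subset (hC 0 (l 0)) (isClosed_iInter fun j => hcl j (l j))
      (Set.iInter_subset _ 0)
  refine ⟨(fun q : ProbabilityMeasure Y × (Z × ProbabilityMeasure (X × Y)) => q.2.1) ''
    (⋂ j, C j (l j)), hI.image (continuous_fst.comp continuous_snd), ?_, ?_⟩
  · rintro _ ⟨q, hq, rfl⟩
    refine Set.mem_iInter.2 fun j => ?_
    exact hFs j (l j) (Set.mem_iInter.1 hq j).2.1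
  · refine (measure_mono ?_).trans (hl.trans (add_le_add (measure_mono ?_) le_rfl))
    · rintro ν ⟨z, hz, lam, hlam⟩
      refine ⟨(ν, z, ⟨lam, hlam.1⟩), Set.mem_iInter.2 fun j => ?_, rfl⟩
      have h1 : z ∈ ⋃ n, F j n := by
        rw [hFu j]
        exact Set.mem_iInter.1 hz j
      obtain ⟨n, hn⟩ := Set.mem_iUnion.1 h1
      have h2 : z ∈ ⋃ n, K n := by
        rw [hK, iUnion_compactCovering]
        exact Set.mem_univ z
      obtain ⟨m, hm'⟩ := Set.mem_iUnion.1 h2
      exact Set.mem_iUnion.2 ⟨max n m, hlam, hFm j (le_max_left n m) hn, hKm (le_max_right n m) hm'⟩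
    · rintro _ ⟨q, hq, rfl⟩
      exact ⟨q.2.1, ⟨q, hq, rfl⟩, q.2.2, (Set.mem_iInter.1 hq 0).1⟩

end Pool.Agent.Lib.MP_3e612f_nt.NF
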