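import Pool.Agent.Lib.MP_3e612f_nt.NF.E.Defs

/-! The set of the measures modelled by a compact system is closed and convex. -/

set_option autoImplicit false

namespace Pool.Agent.Lib.MP_3e612f_nt.NF

open MeasureTheory Filter Topology

private theorem closed_fin {Y : Type} [MeasurableSpace Y] (μ : Measure Y) [IsFiniteMeasure μ]
    (t : ℝ) : IsFiniteMeasure (ENNReal.ofReal t • μ) :=
  ⟨by
    rw [Measure.smul_apply, smul_eq_mul]
    exact ENNReal.mul_lt_top ENNReal.ofReal_lt_top (measure_lt_top μ _)⟩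

private theorem closed_integrable {Y : Type} [MetricSpace Y] [CompactSpace Y] [MeasurableSpace Y]
    [BorelSpace Y] (μ : Measure Y) [IsFiniteMeasure μ] {h : Y → ℝ} (hh : Continuous h) :
    Integrable h μ :=
  (BoundedContinuousFunction.mkOfCompact ⟨h, hh⟩).integrable μ

private theorem closed_int {Y : Type} [MeasurableSpace Y] (μ₁ μ₂ : Measure Y) {t : ℝ} (h0 : 0 ≤ t)
    (h1 : t ≤ 1) (h : Y → ℝ) (hi₁ : Integrable h μ₁) (hi₂ : Integrable h μ₂) :
    ∫ y, h y ∂(ENNReal.ofReal t • μ₁ + ENNReal.ofReal (1 - t) • μ₂) =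
      t * ∫ y, h y ∂μ₁ + (1 - t) * ∫ y, h y ∂μ₂ := by
  rw [integral_add_measure (hi₁.smul_measure ENNReal.ofReal_ne_top)
    (hi₂.smul_measure ENNReal.ofReal_ne_top), integral_smul_measure, integral_smul_measure,
    ENNReal.toReal_ofReal h0, ENNReal.toReal_ofReal (sub_nonneg.2 h1), smul_eq_mul, smul_eq_mul]

/-- The set of the pairs `(ν, lam)`, `lam ∈ ProbabilityMeasure (E × Y)`, with `JoinLe` is closed: all conditions are equalities or inequalities between integrals of continuous functions: `∫ φ (T x, S y) dlam = ∫ φ dlam` for all `φ : C(E × Y, ℝ)` (equivalent to invariance: `ext_of_forall_integral_eq_of_IsFiniteMeasure`),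
`∫ ψ(y) dlam = ∫ ψ dν` for `ψ : C(Y, ℝ)`, `∫ |g - f| dlam ≤ ε`. -/
theorem join_closed {E Y : Type} [MetricSpace E] [CompactSpace E] [MeasurableSpace E] [BorelSpace E] [MetricSpace Y] [CompactSpace Y] [MeasurableSpace Y] [BorelSpace Y]
    (T : E → E) (hT : Continuous T) (S : Y → Y) (hS : Continuous S) (g : Y → ℂ) (hg : Continuous g) (f : E → ℂ) (hf : Continuous f) (ε : ℝ) :
    IsClosed {q : ProbabilityMeasure Y × ProbabilityMeasure (E × Y) | JoinLe T S (q.1 : Measure Y) g f ε (q.2 : Measure (E × Y))} := by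
  have hF : Continuous (Prod.map T S) := hT.prodMap hS
  have h1 : IsClosed {q : ProbabilityMeasure Y × ProbabilityMeasure (E × Y) |
      q.2.map hF.measurable.aemeasurable = q.2} :=
    isClosed_eq ((ProbabilityMeasure.continuous_map hF).comp continuous_snd) continuous_snd
  have h2 : IsClosed {q : ProbabilityMeasure Y × ProbabilityMeasure (E × Y) |
      q.2.map continuous_snd.measurable.aemeasurable = q.1} :=
    isClosed_eq ((ProbabilityMeasure.continuous_map continuous_snd).comp continuous_snd)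
      continuous_fst
  have hc : Continuous fun p : E × Y => ‖g p.2 - f p.1‖ :=
    ((hg.comp continuous_snd).sub (hf.comp continuous_fst)).norm
  have h3 : IsClosed {q : ProbabilityMeasure Y × ProbabilityMeasure (E × Y) |
      ∫ p, (BoundedContinuousFunction.mkOfCompact ⟨_, hc⟩ : E × Y → ℝ) p ∂(q.2 : Measure (E × Y)) ≤
        ε} :=
    isClosed_le ((ProbabilityMeasure.continuous_integral_boundedContinuousFunction _).comp
      continuous_snd) continuous_const
  have h4 : {q : ProbabilityMeasure Y × ProbabilityMeasure (E × Y) |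
      JoinLe T S (q.1 : Measure Y) g f ε (q.2 : Measure (E × Y))} =
      {q | q.2.map hF.measurable.aemeasurable = q.2} ∩
        ({q | q.2.map continuous_snd.measurable.aemeasurable = q.1} ∩
          {q | ∫ p, (BoundedContinuousFunction.mkOfCompact ⟨_, hc⟩ : E × Y → ℝ) p
            ∂(q.2 : Measure (E × Y)) ≤ ε}) := by
    ext q
    constructor
    · rintro ⟨-, ha, hb, hd⟩
      exact ⟨Subtype.ext ha.map_eq, Subtype.ext hb, hd⟩
    · rintro ⟨ha, hb, hd⟩
      exact ⟨q.2.2, ⟨hF.measurable, congrArg Subtype.val ha⟩, congrArg Subtype.val hb, hd⟩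
  rw [h4]
  exact h1.inter (h2.inter h3)

/-- Projection of a closed set along a compact space. -/
theorem dset_closed {E Y : Type} [MetricSpace E] [CompactSpace E] [MeasurableSpace E] [BorelSpace E] [MetricSpace Y] [CompactSpace Y] [MeasurableSpace Y] [BorelSpace Y]
    (T : E → E) (hT : Continuous T) (S : Y → Y) (hS : Continuous S) (g : Y → ℂ) (hg : Continuous g) (f : E → ℂ) (hf : Continuous f) (ε : ℝ) :
    IsClosed (DSet T S g f ε) := by
  have h := join_closed T hT S hS g hg f hf ε
  have h2 : DSet T S g f ε = Prod.fst '' {q : ProbabilityMeasure Y × ProbabilityMeasure (E × Y) |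
      JoinLe T S (q.1 : Measure Y) g f ε (q.2 : Measure (E × Y))} := by
    ext ν
    constructor
    · rintro ⟨lam, hl⟩
      exact ⟨(ν, ⟨lam, hl.1⟩), hl, rfl⟩
    · rintro ⟨q, hq, rfl⟩
      exact ⟨_, hq⟩
  rw [h2]
  exact isClosedMap_fst_of_compactSpace _ h

/-- `lam = t lam₁ + (1 - t) lam₂`. -/
theorem dset_conv {E Y : Type} [MetricSpace E] [CompactSpace E] [MeasurableSpace E] [BorelSpace E] [MetricSpace Y] [CompactSpace Y] [MeasurableSpace Y] [BorelSpace Y]
    (T : E → E) (hT : Continuous T) (S : Y → Y) (hS : Continuous S) (g : Y → ℂ) (hg : Continuous g) (f : E → ℂ) (hf : Continuous f) (ε : ℝ) :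
    ConvPM (DSet T S g f ε) := by
  rintro ν₁ ⟨l₁, hp₁, hm₁, hs₁, hi₁⟩ ν₂ ⟨l₂, hp₂, hm₂, hs₂, hi₂⟩ ν t ht0 ht1 hν
  have hF : Measurable (Prod.map T S) := (hT.prodMap hS).measurable
  have ht1' : 0 ≤ 1 - t := sub_nonneg.2 ht1
  have hc : Continuous fun p : E × Y => ‖g p.2 - f p.1‖ :=
    ((hg.comp continuous_snd).sub (hf.comp continuous_fst)).norm
  refine ⟨ENNReal.ofReal t • l₁ + ENNReal.ofReal (1 - t) • l₂, ⟨?_⟩, ⟨hF, ?_⟩, ?_, ?_⟩
  · rw [Measure.add_apply, Measure.smul_apply, Measure.smul_apply, measure_univ, measure_univ,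
      smul_eq_mul, smul_eq_mul, mul_one, mul_one, ← ENNReal.ofReal_add ht0 ht1']
    rw [add_sub_cancel, ENNReal.ofReal_one]
  · rw [Measure.map_add _ _ hF, Measure.map_smul, Measure.map_smul, hm₁.map_eq, hm₂.map_eq]
  · rw [Measure.map_add _ _ measurable_snd, Measure.map_smul, Measure.map_smul, hs₁, hs₂]
    have hfin : IsFiniteMeasure (ENNReal.ofReal t • (ν₁ : Measure Y) +
        ENNReal.ofReal (1 - t) • (ν₂ : Measure Y)) := by
      have h1 := closed_fin (ν₁ : Measure Y) t
      have h2 := closed_fin (ν₂ : Measure Y) (1 - t)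
      infer_instance
    refine ext_of_forall_integral_eq_of_IsFiniteMeasure fun φ => ?_
    rw [closed_int (ν₁ : Measure Y) (ν₂ : Measure Y) ht0 ht1 _ (φ.integrable _)
      (φ.integrable _)]
    exact (hν φ.toContinuousMap).symm
  · rw [closed_int l₁ l₂ ht0 ht1 _ (closed_integrable l₁ hc) (closed_integrable l₂ hc)]
    nlinarith

/-- `lam` on `X × Y` goes to its image under `(x, y) ↦ ((z, x), y)`. -/
theorem dset_fam {Z X Y : Type} [MetricSpace Z] [MeasurableSpace Z] [BorelSpace Z] [MetricSpace X] [CompactSpace X] [MeasurableSpace X] [BorelSpace X]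
    [MetricSpace Y] [CompactSpace Y] [MeasurableSpace Y] [BorelSpace Y]
    (Φ : Z → X → X) (hΦ : Continuous fun q : Z × X => Φ q.1 q.2) (S : Y → Y) (hS : Continuous S) (g : Y → ℂ) (hg : Continuous g) (f : X → ℂ) (hf : Continuous f) (ε : ℝ)
    (U : Set Z) (z : Z) (hz : z ∈ U) : DSet (Φ z) S g f ε ⊆ DSet (fam Φ U) S g (fun q : U × X => f q.2) ε := by
  rintro ν ⟨lam, hp, hm, hs, hi⟩
  have hJ : Measurable fun p : X × Y => (((⟨z, hz⟩ : U), p.1), p.2) :=
    (measurable_const.prodMk measurable_fst).prodMk measurable_snd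
  have hfam : Measurable (fam Φ U) := by
    have h1 : Continuous fun q : U × X => Φ q.1 q.2 :=
      hΦ.comp ((continuous_subtype_val.comp continuous_fst).prodMk continuous_snd)
    exact measurable_fst.prodMk h1.measurable
  have hF : Measurable (Prod.map (fam Φ U) S) := hfam.prodMap hS.measurable
  refine ⟨lam.map fun p : X × Y => (((⟨z, hz⟩ : U), p.1), p.2),
    Measure.isProbabilityMeasure_map hJ.aemeasurable, ⟨hF, ?_⟩, ?_, ?_⟩
  · rw [Measure.map_map hF hJ]
    have h1 : (Prod.map (fam Φ U) S) ∘ (fun p : X × Y => (((⟨z, hz⟩ : U), p.1), p.2)) =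
        (fun p : X × Y => (((⟨z, hz⟩ : U), p.1), p.2)) ∘ Prod.map (Φ z) S := rfl
    rw [h1, ← Measure.map_map hJ hm.measurable, hm.map_eq]
  · rw [Measure.map_map measurable_snd hJ]
    exact hs
  · rw [integral_map hJ.aemeasurable]
    · exact hi
    · exact (((hg.measurable.comp measurable_snd).sub
        (hf.measurable.comp (measurable_snd.comp measurable_fst))).norm).aestronglyMeasurable

end Pool.Agent.Lib.MP_3e612f_nt.NF
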