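import Pool.Agent.Lib.MP_3e612f_nt.LO.M.Unif

/-! From ergodic measures to models: definitions (paper v4, Part E). -/

set_option autoImplicit false

namespace Pool.Agent.Lib.MP_3e612f_nt.NF

open Finset MeasureTheory Filter Topology
open Pool.Agent.Lib.MP_3e612f_nt.PI (mc)

/-- The Moebius function does not correlate with `f` along the orbits of `T` on almost all short intervals (sums over `range`). -/
def GoodR {E : Type} (T : E → E) (f : E → ℂ) : Prop :=
  ∀ ε : ℝ, 0 < ε → ∃ h₀ : ℕ, ∀ h ≥ h₀, ∃ N₀ : ℕ, ∀ N ≥ N₀, ∀ y : ℕ → E,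
    ∑ x ∈ range N, ‖∑ n ∈ range h, mc (x + n) * f (T^[n] (y x))‖ ≤ ε * h * N

/-- `lam` is an invariant probability measure of `T × S` with second marginal `ν` and `∫ |g(y) - f(x)| d lam ≤ ε`. -/
def JoinLe {E Y : Type} [MeasurableSpace E] [MeasurableSpace Y] (T : E → E) (S : Y → Y) (ν : Measure Y) (g : Y → ℂ) (f : E → ℂ) (ε : ℝ) (lam : Measure (E × Y)) : Prop :=
  IsProbabilityMeasure lam ∧ MeasurePreserving (Prod.map T S) lam lam ∧ lam.map Prod.snd = ν ∧ ∫ p, ‖g p.2 - f p.1‖ ∂lam ≤ ε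

/-- `ν` is modelled up to `ε` by a locally uniform function on some system. -/
def Modl {Y : Type} [MeasurableSpace Y] (S : Y → Y) (g : Y → ℂ) (ν : Measure Y) (ε : ℝ) : Prop :=
  ∃ (E : Type) (_ : MeasurableSpace E) (T : E → E) (f : E → ℂ) (lam : Measure (E × Y)), Measurable f ∧ (∃ C : ℝ, ∀ x, ‖f x‖ ≤ C) ∧ GoodR T f ∧ JoinLe T S ν g f ε lam

/-- the measures with a joining as in `JoinLe` -/
def DSet {E Y : Type} [MeasurableSpace E] [MeasurableSpace Y] (T : E → E) (S : Y → Y) (g : Y → ℂ) (f : E → ℂ) (ε : ℝ) : Set (ProbabilityMeasure Y) :=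
  {ν | ∃ lam : Measure (E × Y), JoinLe T S (ν : Measure Y) g f ε lam}

/-- closed under convex combinations of two elements -/
def ConvPM {Y : Type} [TopologicalSpace Y] [MeasurableSpace Y] (D : Set (ProbabilityMeasure Y)) : Prop :=
  ∀ ν₁ ∈ D, ∀ ν₂ ∈ D, ∀ ν : ProbabilityMeasure Y, ∀ t : ℝ, 0 ≤ t → t ≤ 1 →
    (∀ φ : C(Y, ℝ), ∫ y, φ y ∂(ν : Measure Y) = t * ∫ y, φ y ∂(ν₁ : Measure Y) + (1 - t) * ∫ y, φ y ∂(ν₂ : Measure Y)) → ν ∈ D

/-- `ν` is the barycentre of the measures `f ω` with respect to `ρ` -/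
def IsBary {Ω Y : Type} [MeasurableSpace Ω] [TopologicalSpace Y] [MeasurableSpace Y] (ρ : Measure Ω) (f : Ω → ProbabilityMeasure Y) (ν : ProbabilityMeasure Y) : Prop :=
  ∀ φ : C(Y, ℝ), ∫ y, φ y ∂(ν : Measure Y) = ∫ ω, (∫ y, φ y ∂(f ω : Measure Y)) ∂ρ

/-- the family of the maps `Φ z`, `z ∈ U` -/
def fam {Z X : Type} (Φ : Z → X → X) (U : Set Z) (q : U × X) : U × X := (q.1, Φ q.1 q.2)

/-- a family of systems with parameters in a σ-compact metric space, a Gδ set `⋂ j, GG j` of parameters and a function which is locally uniform on the family over each compact set of such parameters -/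
structure Famc where
  X : Type
  Z : Type
  [mX : MetricSpace X]
  [cX : CompactSpace X]
  [sX : MeasurableSpace X]
  [bX : BorelSpace X]
  [mZ : MetricSpace Z]
  [cZ : SigmaCompactSpace Z]
  [sZ : MeasurableSpace Z]
  [bZ : BorelSpace Z]
  Φ : Z → X → X
  cont : Continuous fun q : Z × X => Φ q.1 q.2
  GG : ℕ → Set Z
  isOpen : ∀ j, IsOpen (GG j)
  f : X → ℂ
  hf : Continuous f
  good : ∀ U : Set Z, IsCompact U → U ⊆ ⋂ j, GG j → GoodR (fam Φ U) (fun q => f q.2)

attribute [instance] Famc.mX Famc.cX Famc.sX Famc.bX Famc.mZ Famc.cZ Famc.sZ Famc.bZ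

end Pool.Agent.Lib.MP_3e612f_nt.NF
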