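import Pool.Agent.Lib.MP_3e612f_nt.NF.E.Closed

/-! Joinings with the systems of a family: auxiliary statements. -/

set_option autoImplicit false

namespace Pool.Agent.Lib.MP_3e612f_nt.NF

open MeasureTheory Filter Topology

/-- Continuity of the integral in the function and the measure. -/
theorem jza_cont {Z P : Type} [TopologicalSpace Z] [MetricSpace P] [CompactSpace P]
    [MeasurableSpace P] [BorelSpace P] (h : Z → C(P, ℝ)) (hh : Continuous h) :
    Continuous fun q : Z × ProbabilityMeasure P => ∫ x, h q.1 x ∂(q.2 : Measure P) := by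
  have hint : ∀ (μ : ProbabilityMeasure P) (φ : C(P, ℝ)), Integrable φ (μ : Measure P) := by
    intro μ φ
    refine Integrable.of_bound (C := ‖φ‖) φ.continuous.aestronglyMeasurable ?_
    exact Eventually.of_forall fun x => φ.norm_coe_le_norm x
  rw [continuous_iff_continuousAt]
  rintro ⟨z₀, μ₀⟩
  have h1 : Tendsto (fun q : Z × ProbabilityMeasure P => ∫ x, (h q.1 - h z₀) x ∂(q.2 : Measure P))
      (𝓝 (z₀, μ₀)) (𝓝 0) := by
    have h2 : Tendsto (fun q : Z × ProbabilityMeasure P => ‖h q.1 - h z₀‖) (𝓝 (z₀, μ₀)) (𝓝 0) := by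
      have h3 : Continuous fun q : Z × ProbabilityMeasure P => ‖h q.1 - h z₀‖ :=
        ((hh.comp continuous_fst).sub continuous_const).norm
      have h4 := h3.tendsto (z₀, μ₀)
      simpa using h4
    refine squeeze_zero_norm (fun q => ?_) h2
    have h5 := norm_integral_le_of_norm_le_const (μ := (q.2 : Measure P)) (C := ‖h q.1 - h z₀‖)
      (f := fun x => (h q.1 - h z₀) x)
      (Eventually.of_forall fun x => (h q.1 - h z₀).norm_coe_le_norm x)
    simpa using h5
  have h6 : Tendsto (fun q : Z × ProbabilityMeasure P => ∫ x, h z₀ x ∂(q.2 : Measure P))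
      (𝓝 (z₀, μ₀)) (𝓝 (∫ x, h z₀ x ∂(μ₀ : Measure P))) := by
    have h7 : Continuous fun q : Z × ProbabilityMeasure P => ∫ x, h z₀ x ∂(q.2 : Measure P) :=
      (ProbabilityMeasure.continuous_integral_continuousMap (h z₀)).comp continuous_snd
    exact h7.tendsto (z₀, μ₀)
  have h8 := h1.add h6
  rw [zero_add] at h8
  refine h8.congr fun q => ?_
  rw [← integral_add (hint q.2 _) (hint q.2 _)]
  refine integral_congr_ae (Eventually.of_forall fun x => ?_)
  simp

theorem jza_mp {P : Type} [MetricSpace P] [CompactSpace P] [MeasurableSpace P] [BorelSpace P]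
    (lam : Measure P) [IsProbabilityMeasure lam] {G : P → P} (hG : Continuous G) :
    MeasurePreserving G lam lam ↔ ∀ φ : C(P, ℝ), ∫ p, φ (G p) ∂lam = ∫ p, φ p ∂lam := by
  constructor
  · intro h φ
    conv_rhs => rw [← h.map_eq]
    exact (integral_map hG.measurable.aemeasurable φ.continuous.aestronglyMeasurable).symm
  · intro h
    refine ⟨hG.measurable, ?_⟩
    have : IsProbabilityMeasure (lam.map G) := Measure.isProbabilityMeasure_map hG.measurable.aemeasurable
    refine ext_of_forall_integral_eq_of_IsFiniteMeasure fun f => ?_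
    have h1 := h f.toContinuousMap
    rw [integral_map hG.measurable.aemeasurable f.continuous.aestronglyMeasurable]
    exact h1

theorem jza_map {P Y : Type} [MetricSpace P] [CompactSpace P] [MeasurableSpace P] [BorelSpace P]
    [MetricSpace Y] [CompactSpace Y] [MeasurableSpace Y] [BorelSpace Y]
    (lam : Measure P) [IsProbabilityMeasure lam] (ν : Measure Y) [IsProbabilityMeasure ν]
    {G : P → Y} (hG : Continuous G) :
    lam.map G = ν ↔ ∀ φ : C(Y, ℝ), ∫ p, φ (G p) ∂lam = ∫ y, φ y ∂ν := by
  constructor
  · intro h φ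
    rw [← h]
    exact (integral_map hG.measurable.aemeasurable φ.continuous.aestronglyMeasurable).symm
  · intro h
    have : IsProbabilityMeasure (lam.map G) := Measure.isProbabilityMeasure_map hG.measurable.aemeasurable
    refine ext_of_forall_integral_eq_of_IsFiniteMeasure fun f => ?_
    have h1 := h f.toContinuousMap
    rw [integral_map hG.measurable.aemeasurable f.continuous.aestronglyMeasurable]
    exact h1

end Pool.Agent.Lib.MP_3e612f_nt.NF
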