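import Pool.Agent.Lib.MP_3e612f_nt.NF.E.Defs

/-! Disjoint unions of models. -/

set_option autoImplicit false

namespace Pool.Agent.Lib.MP_3e612f_nt.NF

open Finset MeasureTheory Filter Topology
open Pool.Agent.Lib.MP_3e612f_nt.PI (mc)

theorem sum_iter {r : ℕ} (E : Fin r → Type) (T : ∀ i, E i → E i) (n : ℕ) (i : Fin r) (e : E i) :
    (fun q : Σ i, E i => (⟨q.1, T q.1 q.2⟩ : Σ i, E i))^[n] ⟨i, e⟩ = ⟨i, (T i)^[n] e⟩ := by
  induction n generalizing e with
  | zero => rfl
  | succ n ih => rw [Function.iterate_succ_apply, Function.iterate_succ_apply, ih]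

/-- The disjoint union of locally uniform functions is locally uniform: for `y : ℕ → Σ i, E i` and each `i` replace the `y x` which are not in `E i` by some fixed point of `E i` (if `E i` is empty there is nothing to do): `∑_x ‖..‖ ≤ ∑_i ∑_x ‖.. f i ..‖`, with `ε / r` for each `i`. -/
theorem goodR_sigma (r : ℕ) (E : Fin r → Type) (T : ∀ i, E i → E i) (f : ∀ i, E i → ℂ) (h : ∀ i, GoodR (T i) (f i)) :
    GoodR (fun q : Σ i, E i => (⟨q.1, T q.1 q.2⟩ : Σ i, E i)) (fun q => f q.1 q.2) := by
  classical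
  intro ε hε
  rcases Nat.eq_zero_or_pos r with hr | hr
  · subst hr
    exact ⟨0, fun h _ => ⟨0, fun N _ y => (y 0).1.elim0⟩⟩
  have hr' : (0 : ℝ) < r := by exact_mod_cast hr
  choose h0 H using fun i => h i (ε / r) (div_pos hε hr')
  refine ⟨Finset.univ.sup h0, fun k hk => ?_⟩
  have hk' : ∀ i, h0 i ≤ k := fun i => (Finset.le_sup (Finset.mem_univ i)).trans hk
  choose N0 HN using fun i => H i k (hk' i)
  refine ⟨Finset.univ.sup N0, fun N hN y => ?_⟩
  have hN' : ∀ i, N0 i ≤ N := fun i => (Finset.le_sup (Finset.mem_univ i)).trans hN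
  let yy : ∀ i, Nonempty (E i) → ℕ → E i := fun i hi x =>
    if hx : ∃ e : E i, y x = ⟨i, e⟩ then hx.choose else Classical.choice hi
  let A : Fin r → ℕ → ℝ := fun i x => if hi : Nonempty (E i) then
    ‖∑ n ∈ range k, mc (x + n) * f i ((T i)^[n] (yy i hi x))‖ else 0
  have hA0 : ∀ i x, 0 ≤ A i x := by
    intro i x
    simp only [A]
    split_ifs
    · exact norm_nonneg _
    · exact le_rfl
  have hA : ∀ i, ∑ x ∈ range N, A i x ≤ ε / r * k * N := by
    intro i
    by_cases hi : Nonempty (E i)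
    · have h1 := HN i N (hN' i) (yy i hi)
      refine le_trans (le_of_eq (Finset.sum_congr rfl fun x _ => ?_)) h1
      exact dif_pos hi
    · have h2 : ∀ x, A i x = 0 := fun x => dif_neg hi
      rw [Finset.sum_congr rfl fun x _ => h2 x, Finset.sum_const_zero]
      positivity
  have hx : ∀ x, ‖∑ n ∈ range k, mc (x + n) *
      (fun q : Σ i, E i => f q.1 q.2) ((fun q : Σ i, E i =>
        (⟨q.1, T q.1 q.2⟩ : Σ i, E i))^[n] (y x))‖ ≤ ∑ i, A i x := by
    intro x
    obtain ⟨i, e, hie⟩ : ∃ i e, y x = ⟨i, e⟩ := ⟨(y x).1, (y x).2, rfl⟩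
    have hex : ∃ e : E i, y x = ⟨i, e⟩ := ⟨e, hie⟩
    have hi : Nonempty (E i) := ⟨e⟩
    have h3 : yy i hi x = e := by
      have h4 : yy i hi x = hex.choose := dif_pos hex
      have h5 : (⟨i, e⟩ : Σ i, E i) = ⟨i, hex.choose⟩ := hie.symm.trans hex.choose_spec
      rw [h4]
      exact (eq_of_heq (Sigma.mk.inj h5).2).symm
    have h6 : A i x = ‖∑ n ∈ range k, mc (x + n) * f i ((T i)^[n] e)‖ := by
      have h7 : A i x = ‖∑ n ∈ range k, mc (x + n) * f i ((T i)^[n] (yy i hi x))‖ := dif_pos hi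
      rw [h7, h3]
    refine le_trans (le_of_eq ?_) (Finset.single_le_sum (f := fun i => A i x)
      (fun i _ => hA0 i x) (Finset.mem_univ i))
    rw [h6, hie]
    congr 1
    refine Finset.sum_congr rfl fun n _ => ?_
    rw [sum_iter]
  calc _ ≤ ∑ x ∈ range N, ∑ i, A i x := Finset.sum_le_sum fun x _ => hx x
    _ = ∑ i, ∑ x ∈ range N, A i x := Finset.sum_comm
    _ ≤ ∑ _i : Fin r, ε / r * k * N := Finset.sum_le_sum fun i _ => hA i
    _ = ε * k * N := by
        rw [Finset.sum_const, Finset.card_univ, Fintype.card_fin, nsmul_eq_mul]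
        field_simp

/-- Measurability on a disjoint union. -/
theorem sum_measurable {r : ℕ} {E : Fin r → Type} [∀ i, MeasurableSpace (E i)] {Z : Type}
    [MeasurableSpace Z] {F : (Σ i, E i) → Z} (h : ∀ i, Measurable fun e => F ⟨i, e⟩) :
    Measurable F := by
  intro s hs
  change MeasurableSet[⨅ a, MeasurableSpace.map (Sigma.mk a) inferInstance] (F ⁻¹' s)
  rw [MeasurableSpace.measurableSet_iInf]
  intro i
  exact h i hs

theorem sum_mk {r : ℕ} {E : Fin r → Type} [∀ i, MeasurableSpace (E i)] (i : Fin r) :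
    Measurable (Sigma.mk i : E i → Σ i, E i) := by
  intro s hs
  change MeasurableSet[⨅ a, MeasurableSpace.map (Sigma.mk a) inferInstance] s at hs
  rw [MeasurableSpace.measurableSet_iInf] at hs
  exact hs i

/-- `E = Σ i, E i`, `lam = ∑ w_i (image of lam_i under (x, y) ↦ (⟨i, x⟩, y))`. -/
theorem modl_sum {Y : Type} [MeasurableSpace Y] (S : Y → Y) (hS : Measurable S) (g : Y → ℂ) (hg : Measurable g) (G : ℝ) (hG : ∀ y, ‖g y‖ ≤ G) (r : ℕ) (w : Fin r → ℝ) (hw : ∀ i, 0 ≤ w i) (hw1 : ∑ i, w i = 1)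
    (ν : Fin r → Measure Y) (ε : Fin r → ℝ) (h : ∀ i, Modl S g (ν i) (ε i)) (ν₀ : Measure Y) (hν₀ : ν₀ = ∑ i, ENNReal.ofReal (w i) • ν i) : Modl S g ν₀ (∑ i, w i * ε i) := by
  classical
  choose E mE T f lam hf hC hG' hJ using h
  choose C hC using hC
  have hY : Nonempty Y := by
    have h1 : ∃ i, w i ≠ 0 := by
      by_contra hcon
      push Not at hcon
      rw [Finset.sum_congr rfl fun i _ => hcon i, Finset.sum_const_zero] at hw1
      exact zero_ne_one hw1
    obtain ⟨i, -⟩ := h1
    have := (hJ i).1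
    obtain ⟨p⟩ := (lam i).nonempty_of_neZero
    exact ⟨p.2⟩
  obtain ⟨y0⟩ := hY
  have hT : ∀ i, Measurable (T i) := by
    intro i
    have h1 := (hJ i).2.1.measurable
    have h2 : Measurable fun e : E i => (e, y0) := measurable_id.prodMk measurable_const
    exact measurable_fst.comp (h1.comp h2)
  let φ : ∀ i, E i × Y → (Σ i, E i) × Y := fun i p => (⟨i, p.1⟩, p.2)
  have hφ : ∀ i, Measurable (φ i) := fun i =>
    ((sum_mk i).comp measurable_fst).prodMk measurable_snd
  let TT : (Σ i, E i) → (Σ i, E i) := fun q => ⟨q.1, T q.1 q.2⟩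
  have hTT : Measurable TT := sum_measurable fun i => (sum_mk i).comp (hT i)
  let ff : (Σ i, E i) → ℂ := fun q => f q.1 q.2
  have hff : Measurable ff := sum_measurable fun i => hf i
  let L : Measure ((Σ i, E i) × Y) := ∑ i, ENNReal.ofReal (w i) • (lam i).map (φ i)
  have hL : ∀ s, MeasurableSet s → L s = ∑ i, ENNReal.ofReal (w i) * lam i (φ i ⁻¹' s) := by
    intro s hs
    simp only [L]
    rw [Measure.finsetSum_apply]
    refine Finset.sum_congr rfl fun i _ => ?_
    rw [Measure.smul_apply, Measure.map_apply (hφ i) hs, smul_eq_mul]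
  have hfb : ∀ q, ‖ff q‖ ≤ ∑ i, |C i| := by
    intro q
    exact ((hC q.1 q.2).trans (le_abs_self _)).trans
      (Finset.single_le_sum (f := fun i => |C i|) (fun i _ => abs_nonneg _) (Finset.mem_univ q.1))
  refine ⟨Σ i, E i, inferInstance, TT, ff, L, hff, ⟨_, hfb⟩, goodR_sigma r E T f hG', ?_, ?_, ?_, ?_⟩
  · refine ⟨?_⟩
    rw [hL _ MeasurableSet.univ]
    have h1 : ∀ i, ENNReal.ofReal (w i) * lam i (φ i ⁻¹' Set.univ) = ENNReal.ofReal (w i) := by
      intro i
      have := (hJ i).1
      rw [Set.preimage_univ, measure_univ, mul_one]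
    rw [Finset.sum_congr rfl fun i _ => h1 i, ← ENNReal.ofReal_sum_of_nonneg fun i _ => hw i, hw1,
      ENNReal.ofReal_one]
  · refine ⟨hTT.prodMap hS, ?_⟩
    refine Measure.ext fun s hs => ?_
    rw [Measure.map_apply (hTT.prodMap hS) hs, hL _ (hTT.prodMap hS hs), hL _ hs]
    refine Finset.sum_congr rfl fun i _ => ?_
    congr 1
    exact (hJ i).2.1.measure_preimage (hφ i hs).nullMeasurableSet
  · refine Measure.ext fun s hs => ?_
    rw [Measure.map_apply measurable_snd hs, hL _ (measurable_snd hs), hν₀,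
      Measure.finsetSum_apply]
    refine Finset.sum_congr rfl fun i _ => ?_
    rw [Measure.smul_apply, smul_eq_mul, ← (hJ i).2.2.1, Measure.map_apply measurable_snd hs]
    rfl
  · have hm : Measurable fun p : (Σ i, E i) × Y => ‖g p.2 - ff p.1‖ :=
      ((hg.comp measurable_snd).sub (hff.comp measurable_fst)).norm
    have hI : ∀ i, Integrable (fun p : E i × Y => ‖g p.2 - f i p.1‖) (lam i) := by
      intro i
      have := (hJ i).1
      refine Integrable.of_bound
        (((hg.comp measurable_snd).sub ((hf i).comp measurable_fst)).norm).aestronglyMeasurable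
        (G + C i) (Filter.Eventually.of_forall fun p => ?_)
      rw [norm_norm]
      exact (norm_sub_le _ _).trans (add_le_add (hG _) (hC i _))
    have hI2 : ∀ i, Integrable (fun p : (Σ i, E i) × Y => ‖g p.2 - ff p.1‖)
        ((lam i).map (φ i)) := by
      intro i
      rw [integrable_map_measure hm.aestronglyMeasurable (hφ i).aemeasurable]
      exact hI i
    simp only [L]
    rw [integral_finsetSum_measure fun i _ => (hI2 i).smul_measure ENNReal.ofReal_ne_top]
    refine Finset.sum_le_sum fun i _ => ?_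
    rw [integral_smul_measure, ENNReal.toReal_ofReal (hw i), smul_eq_mul,
      integral_map (hφ i).aemeasurable hm.aestronglyMeasurable]
    exact mul_le_mul_of_nonneg_left (hJ i).2.2.2 (hw i)

/-- the trivial model: `E` = a point, `f = 0` -/
theorem modl_triv {Y : Type} [MeasurableSpace Y] (S : Y → Y) (g : Y → ℂ) (G : ℝ) (hG : ∀ y, ‖g y‖ ≤ G) (ν : Measure Y) [IsProbabilityMeasure ν]
    (hν : MeasurePreserving S ν ν) : Modl S g ν G := by
  have hm : Measurable fun y : Y => ((), y) := measurable_const.prodMk measurable_id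
  refine ⟨Unit, inferInstance, id, fun _ => 0, ν.map fun y => ((), y), measurable_const,
    ⟨0, fun _ => by rw [norm_zero]⟩, ?_, ?_, ?_, ?_, ?_⟩
  · intro ε hε
    refine ⟨0, fun h _ => ⟨0, fun N _ y => ?_⟩⟩
    simp only [mul_zero, Finset.sum_const_zero, norm_zero]
    positivity
  · exact Measure.isProbabilityMeasure_map hm.aemeasurable
  · refine ⟨measurable_id.prodMap hν.measurable, ?_⟩
    rw [Measure.map_map (measurable_id.prodMap hν.measurable) hm]
    have h1 : (Prod.map id S ∘ fun y : Y => ((), y)) = (fun y : Y => ((), y)) ∘ S := rfl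
    rw [h1, ← Measure.map_map hm hν.measurable, hν.map_eq]
  · rw [Measure.map_map measurable_snd hm]
    exact Measure.map_id
  · have hp : IsProbabilityMeasure (ν.map fun y => ((), y)) :=
      Measure.isProbabilityMeasure_map hm.aemeasurable
    have h1 := norm_integral_le_of_norm_le_const (μ := ν.map fun y => ((), y))
      (f := fun p : Unit × Y => ‖g p.2 - 0‖) (C := G) (Filter.Eventually.of_forall fun p => by
        rw [norm_norm, sub_zero]
        exact hG _)
    rw [probReal_univ, mul_one] at h1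
    exact (le_abs_self _).trans h1

theorem modl_mono {Y : Type} [MeasurableSpace Y] (S : Y → Y) (g : Y → ℂ) (ν : Measure Y) {ε ε' : ℝ} (h : ε ≤ ε') (hm : Modl S g ν ε) : Modl S g ν ε' := by
  obtain ⟨E, i1, T, f, lam, h1, h2, h3, h4, h5, h6, h7⟩ := hm
  exact ⟨E, i1, T, f, lam, h1, h2, h3, h4, h5, h6, h7.trans h⟩

end Pool.Agent.Lib.MP_3e612f_nt.NF
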