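import Pool.Agent.Lib.MP_3e612f_nt.NF.E.CapFam
import Pool.Agent.Lib.MP_3e612f_nt.NF.E.Bary
import Pool.Agent.Lib.MP_3e612f_nt.NF.E.Sum

/-! Mixtures: auxiliary statements. -/

set_option autoImplicit false

namespace Pool.Agent.Lib.MP_3e612f_nt.NF

open Finset MeasureTheory Filter Topology

variable {Y : Type} [MetricSpace Y] [CompactSpace Y] [MeasurableSpace Y] [BorelSpace Y]

/-- One family: a closed convex set of measures with models, which contains most of the measures modelled by the family. -/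
theorem mxa_cap (S : Y → Y) (hS : Continuous S) (g : Y → ℂ) (hg : Continuous g) (𝓕 : Famc) (ε : ℝ)
    (ρ : Measure (ProbabilityMeasure Y)) [IsFiniteMeasure ρ] (δ : ENNReal) (hδ : δ ≠ 0) :
    ∃ D : Set (ProbabilityMeasure Y), IsClosed D ∧ ConvPM D ∧
      (∀ ν ∈ D, Modl S g (ν : Measure Y) ε) ∧
      ∃ A' : Set (ProbabilityMeasure Y), A' ⊆ D ∧
        A' ⊆ {ν | ∃ z ∈ ⋂ j, 𝓕.GG j, ν ∈ DSet (𝓕.Φ z) S g 𝓕.f ε} ∧
        ρ {ν | ∃ z ∈ ⋂ j, 𝓕.GG j, ν ∈ DSet (𝓕.Φ z) S g 𝓕.f ε} ≤ ρ A' + δ := by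
  obtain ⟨U, hU, hUG, hle⟩ := cap_fam 𝓕.Φ 𝓕.cont S hS g hg 𝓕.f 𝓕.hf ε 𝓕.GG 𝓕.isOpen ρ δ hδ
  have hcU : CompactSpace U := isCompact_iff_compactSpace.1 hU
  have hfam : Continuous (fam 𝓕.Φ U) := by
    unfold fam
    exact continuous_fst.prodMk
      (𝓕.cont.comp ((continuous_subtype_val.comp continuous_fst).prodMk continuous_snd))
  have hf2 : Continuous (fun q : U × 𝓕.X => 𝓕.f q.2) := 𝓕.hf.comp continuous_snd
  refine ⟨DSet (fam 𝓕.Φ U) S g (fun q : U × 𝓕.X => 𝓕.f q.2) ε,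
    dset_closed _ hfam S hS g hg _ hf2 ε, dset_conv _ hfam S hS g hg _ hf2 ε, ?_,
    {ν | ∃ z ∈ U, ν ∈ DSet (𝓕.Φ z) S g 𝓕.f ε}, ?_, ?_, hle⟩
  · rintro ν ⟨lam, hlam⟩
    obtain ⟨C, hC⟩ := isCompact_univ.exists_bound_of_continuousOn 𝓕.hf.continuousOn
    exact ⟨U × 𝓕.X, inferInstance, fam 𝓕.Φ U, fun q => 𝓕.f q.2, lam, hf2.measurable,
      ⟨C, fun q => hC q.2 (Set.mem_univ _)⟩, 𝓕.good U hU hUG, hlam⟩
  · rintro ν ⟨z, hz, hν⟩
    exact dset_fam 𝓕.Φ 𝓕.cont S hS g hg 𝓕.f 𝓕.hf ε U z hz hν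
  · rintro ν ⟨z, hz, hν⟩
    exact ⟨z, hUG hz, hν⟩

/-- The invariant measures. -/
theorem mxa_inv (S : Y → Y) (hS : Continuous S) (g : Y → ℂ) (hg : Continuous g) (G : ℝ)
    (hG : ∀ y, ‖g y‖ ≤ G) :
    ∃ D : Set (ProbabilityMeasure Y), IsClosed D ∧ ConvPM D ∧
      (∀ ν ∈ D, Modl S g (ν : Measure Y) G) ∧
      ∀ ν : ProbabilityMeasure Y, MeasurePreserving S (ν : Measure Y) (ν : Measure Y) → ν ∈ D := by
  refine ⟨DSet (id : Unit → Unit) S g (fun _ => 0) G,
    dset_closed _ continuous_id S hS g hg _ continuous_const G,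
    dset_conv _ continuous_id S hS g hg _ continuous_const G, ?_, ?_⟩
  · rintro ν ⟨lam, hlam⟩
    refine ⟨Unit, inferInstance, id, fun _ => 0, lam, measurable_const, ⟨0, fun _ => by simp⟩, ?_,
      hlam⟩
    intro ε hε
    refine ⟨0, fun h _ => ⟨0, fun N _ y => ?_⟩⟩
    simp only [mul_zero, Finset.sum_const_zero, norm_zero]
    positivity
  · intro ν hν
    have hm : Measurable (fun y : Y => ((), y)) := measurable_const.prodMk measurable_id
    refine ⟨(ν : Measure Y).map fun y => ((), y), ?_, ?_, ?_, ?_⟩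
    · exact Measure.isProbabilityMeasure_map hm.aemeasurable
    · refine ⟨measurable_id.prodMap hS.measurable, ?_⟩
      rw [Measure.map_map (measurable_id.prodMap hS.measurable) hm]
      have h1 : (Prod.map (id : Unit → Unit) S) ∘ (fun y : Y => ((), y)) =
          (fun y : Y => ((), y)) ∘ S := rfl
      rw [h1, ← Measure.map_map hm hS.measurable, hν.map_eq]
    · rw [Measure.map_map measurable_snd hm]
      have h1 : (Prod.snd : Unit × Y → Y) ∘ (fun y : Y => ((), y)) = id := rfl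
      rw [h1, Measure.map_id]
    · have h1 : Continuous fun p : Unit × Y => ‖g p.2 - 0‖ :=
        ((hg.comp continuous_snd).sub continuous_const).norm
      rw [integral_map hm.aemeasurable h1.aestronglyMeasurable]
      have h2 := norm_integral_le_of_norm_le_const (μ := (ν : Measure Y)) (C := G)
        (f := fun y => ‖g y - 0‖) (Eventually.of_forall fun y => by simpa using hG y)
      have h3 : ((ν : Measure Y).real Set.univ) = 1 := by simp
      rw [h3, mul_one] at h2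
      exact (le_abs_self _).trans h2

/-- The barycentre of a piece. -/
theorem mxa_piece (ρ : Measure (ProbabilityMeasure Y)) [IsProbabilityMeasure ρ]
    (B : Set (ProbabilityMeasure Y)) (hw : ρ B ≠ 0) (D : Set (ProbabilityMeasure Y))
    (hD : IsClosed D) (hc : ConvPM D) (h : ∀ᵐ ν ∂(ρ.restrict B), ν ∈ D) :
    ∃ ν ∈ D, ∀ φ : C(Y, ℝ), ρ.real B * ∫ y, φ y ∂(ν : Measure Y) =
      ∫ ν' in B, (∫ y, φ y ∂(ν' : Measure Y)) ∂ρ := by
  have hp : IsProbabilityMeasure ((ρ B)⁻¹ • ρ.restrict B) := by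
    constructor
    rw [Measure.smul_apply, Measure.restrict_apply_univ, smul_eq_mul,
      ENNReal.inv_mul_cancel hw (measure_ne_top _ _)]
  obtain ⟨ν, hν, hb⟩ := bary_mem ((ρ B)⁻¹ • ρ.restrict B) id measurable_id D hD hc
    (Measure.ae_smul_measure h _)
  refine ⟨ν, hν, fun φ => ?_⟩
  have h1 := hb φ
  rw [integral_smul_measure] at h1
  rw [h1, ENNReal.toReal_inv, smul_eq_mul, ← mul_assoc]
  have h2 : ρ.real B * (ρ B).toReal⁻¹ = 1 := by
    change (ρ B).toReal * (ρ B).toReal⁻¹ = 1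
    exact mul_inv_cancel₀ (ENNReal.toReal_ne_zero.2 ⟨hw, measure_ne_top _ _⟩)
  rw [h2, one_mul]
  rfl

/-- Mixtures. -/
theorem mxa_main (S : Y → Y) (hS : Continuous S) (g : Y → ℂ) (hg : Continuous g) (G : ℝ)
    (hG : ∀ y, ‖g y‖ ≤ G) (ρ : Measure (ProbabilityMeasure Y)) [IsProbabilityMeasure ρ] (n : ℕ)
    (D : Fin n → Set (ProbabilityMeasure Y)) (hD : ∀ i, IsClosed (D i)) (hc : ∀ i, ConvPM (D i))
    (e : Fin n → ℝ) (hm : ∀ i, ∀ ν ∈ D i, Modl S g (ν : Measure Y) (e i))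
    (B : Fin n → Set (ProbabilityMeasure Y)) (hB : ∀ i, MeasurableSet (B i))
    (hdisj : Pairwise fun i j => Disjoint (B i) (B j)) (hcov : ⋃ i, B i = Set.univ)
    (hBD : ∀ i, ∀ᵐ ν ∂(ρ.restrict (B i)), ν ∈ D i) (ν₁ : ProbabilityMeasure Y) (e₁ : ℝ)
    (hν₁ : Modl S g (ν₁ : Measure Y) e₁) (ν₀ : ProbabilityMeasure Y) (hb : IsBary ρ id ν₀) :
    Modl S g (ν₀ : Measure Y) (∑ i, ρ.real (B i) * e i) := by
  classical
  have hop := opens_meas Y
  have key : ∀ i, ∃ (ν : ProbabilityMeasure Y) (e' : ℝ), Modl S g (ν : Measure Y) e' ∧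
      ρ.real (B i) * e' = ρ.real (B i) * e i ∧
      ∀ φ : C(Y, ℝ), ρ.real (B i) * ∫ y, φ y ∂(ν : Measure Y) =
        ∫ ν' in B i, (∫ y, φ y ∂(ν' : Measure Y)) ∂ρ := by
    intro i
    by_cases hw : ρ (B i) = 0
    · have hw' : ρ.real (B i) = 0 := by
        rw [measureReal_def, hw, ENNReal.toReal_zero]
      refine ⟨ν₁, e₁, hν₁, by rw [hw', zero_mul, zero_mul], fun φ => ?_⟩
      rw [hw', zero_mul, Measure.restrict_eq_zero.2 hw, integral_zero_measure]
    · obtain ⟨ν, hν, h1⟩ := mxa_piece ρ (B i) hw (D i) (hD i) (hc i) (hBD i)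
      exact ⟨ν, e i, hm i ν hν, rfl, h1⟩
  choose ν e' h1 h2 h3 using key
  have hw1 : ∑ i, ρ.real (B i) = 1 := by
    have h4 := measureReal_iUnion_fintype (μ := ρ) hdisj hB
    rw [hcov] at h4
    rw [← h4]
    simp
  have hint : ∀ (μ : ProbabilityMeasure Y) (φ : C(Y, ℝ)), Integrable φ (μ : Measure Y) := by
    intro μ φ
    refine Integrable.of_bound (C := ‖φ‖) φ.continuous.aestronglyMeasurable ?_
    exact Eventually.of_forall fun x => φ.norm_coe_le_norm x
  have hν₀ : (ν₀ : Measure Y) = ∑ i, ENNReal.ofReal (ρ.real (B i)) • (ν i : Measure Y) := by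
    have hfin : IsFiniteMeasure (∑ i, ENNReal.ofReal (ρ.real (B i)) • (ν i : Measure Y)) := by
      constructor
      rw [Measure.finset_sum_apply]
      refine ENNReal.sum_lt_top.2 fun i _ => ?_
      rw [Measure.smul_apply, smul_eq_mul]
      exact ENNReal.mul_lt_top ENNReal.ofReal_lt_top (measure_lt_top _ _)
    refine ext_of_forall_integral_eq_of_IsFiniteMeasure fun f => ?_
    have h4 := hb f.toContinuousMap
    have h5 : ∫ y, f y ∂(∑ i, ENNReal.ofReal (ρ.real (B i)) • (ν i : Measure Y)) =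
        ∑ i, ρ.real (B i) * ∫ y, f y ∂(ν i : Measure Y) := by
      have hf : ∀ i ∈ (Finset.univ : Finset (Fin n)), Integrable (fun y => f y)
          (ENNReal.ofReal (ρ.real (B i)) • (ν i : Measure Y)) := fun i _ =>
        Integrable.smul_measure (hint (ν i) f.toContinuousMap) ENNReal.ofReal_ne_top
      rw [integral_finset_sum_measure hf]
      refine Finset.sum_congr rfl fun i _ => ?_
      rw [integral_smul_measure, ENNReal.toReal_ofReal measureReal_nonneg, smul_eq_mul]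
    rw [h5]
    have h6 : Integrable (fun ν' : ProbabilityMeasure Y => ∫ y, f y ∂(ν' : Measure Y)) ρ := by
      have h7 : Continuous fun ν' : ProbabilityMeasure Y => ∫ y, f y ∂(ν' : Measure Y) :=
        ProbabilityMeasure.continuous_integral_continuousMap f.toContinuousMap
      refine Integrable.of_bound (C := ‖f‖) h7.measurable.aestronglyMeasurable ?_
      refine Eventually.of_forall fun ν' => ?_
      have h8 := norm_integral_le_of_norm_le_const (μ := (ν' : Measure Y)) (C := ‖f‖)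
        (f := fun y => f y) (Eventually.of_forall fun y => f.norm_coe_le_norm y)
      simpa using h8
    have h9 : ∫ ν' : ProbabilityMeasure Y, (∫ y, f y ∂(ν' : Measure Y)) ∂ρ =
        ∑ i, ∫ ν' in B i, (∫ y, f y ∂(ν' : Measure Y)) ∂ρ := by
      rw [← integral_iUnion_fintype hB hdisj fun i => h6.integrableOn, hcov, setIntegral_univ]
    refine h4.trans ?_
    change ∫ ν' : ProbabilityMeasure Y, (∫ y, f y ∂(ν' : Measure Y)) ∂ρ = _
    rw [h9]
    exact Finset.sum_congr rfl fun i _ => (h3 i f.toContinuousMap).symm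
  have h4 := modl_sum S hS.measurable g hg.measurable G hG n (fun i => ρ.real (B i))
    (fun i => measureReal_nonneg) hw1 (fun i => (ν i : Measure Y)) e' h1 (ν₀ : Measure Y) hν₀
  have h5 : ∑ i, ρ.real (B i) * e' i = ∑ i, ρ.real (B i) * e i :=
    Finset.sum_congr rfl fun i _ => h2 i
  rw [← h5]
  exact h4

end Pool.Agent.Lib.MP_3e612f_nt.NF
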