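import Pool.Agent.Lib.MP_3e612f_nt.NF.E.CapFam
import Pool.Agent.Lib.MP_3e612f_nt.NF.E.Bary
import Pool.Agent.Lib.MP_3e612f_nt.NF.E.Sum
import Pool.Agent.Lib.MP_3e612f_nt.NF.E.MixA

/-! Mixtures of measures modelled by the systems of countably many families. -/

set_option autoImplicit false

namespace Pool.Agent.Lib.MP_3e612f_nt.NF

open Finset MeasureTheory Filter Topology

/-- For each `c` let `A_c` be the set of `ν` with `ν ∈ DSet (Φ z) ..` for some `z ∈ ⋂ j, GG j` (family `c`); `ρ`-almost every `ν` is in `⋃ c, A_c`, so `ρ (⋃_{c < r} A_c) ≥ 1 - δ` for some `r` (`Monotone.measure_iUnion`, arbitrary sets). `cap_fam` with `δ/r`: compact `U_c` and `A'_c = {ν | ∃ z ∈ U_c, ..} ⊆ A_c` with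
`ρ (A_c) ≤ ρ (A'_c) + δ/r`; take toMeasurable hulls `B_c ⊇ A'_c`? Simpler: `D_c = DSet (fam Φ U_c) ..` is closed (`dset_closed`; `U_c` is a compact metric space), convex (`dset_conv`), contains `A'_c` (`dset_fam`), so `ρ (⋃_{c<r} D_c) ≥ 1 - 2δ` (as `⋃ A_c ⊆ ⋃ (hull of A'_c) ∪ ..`: `ρ(⋃_c A_c) ≤ ρ(⋃_c D_c) + ∑_c ρ(A_c \ A'_c)` is
not available for non-measurable sets, use instead: `ρ(⋃ A_c)`, take measurable hulls `H_c ⊇ A_c` with `ρ H_c = ρ A_c` (`toMeasurable`); `ρ(H_c \ D_c) = ρ(H_c) - ρ(H_c ∩ D_c) ≤ ρ(A_c) - ρ(A'_c) ≤ δ/r` since `A'_c ⊆ H_c ∩ D_c`). Disjointify: `D'_c = D_c \ ⋃_{c' < c} D_{c'}` measurable. For `ρ D'_c > 0` let `ρ_c` = `ρ` conditioned on `D'_c`;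
`bary_mem` for `D_c`: `ν_c ∈ D_c` barycentre of `ρ_c`; it is modelled up to `ε` (`(𝓕 c).good U_c`). The rest `R` (measure ≤ 2δ): its barycentre `ν_R` is an invariant measure (`bary_mem` for the closed convex set of the invariant measures, e.g. `DSet` with `E` = a point), `modl_triv`. `ν₀ = ∑ ρ(D'_c) ν_c + ρ(R) ν_R`
(test with continuous functions), `modl_sum`, total error `≤ ε + 2 δ G ≤ 2 ε`. -/
theorem mix_modl {Y : Type} [MetricSpace Y] [CompactSpace Y] [MeasurableSpace Y] [BorelSpace Y] (S : Y → Y) (hS : Continuous S) (g : Y → ℂ) (hg : Continuous g) (𝓕 : ℕ → Famc) (ε : ℝ) (hε : 0 < ε)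
    (ρ : Measure (ProbabilityMeasure Y)) [IsProbabilityMeasure ρ] (hρ : ρ {ν | ∃ c, ∃ z ∈ ⋂ j, (𝓕 c).GG j, ν ∈ DSet ((𝓕 c).Φ z) S g (𝓕 c).f ε} = 1)
    (hinv : ∀ᵐ ν : ProbabilityMeasure Y ∂ρ, MeasurePreserving S (ν : Measure Y) (ν : Measure Y)) (ν₀ : ProbabilityMeasure Y) (hb : IsBary ρ id ν₀) : Modl S g (ν₀ : Measure Y) (2 * ε) := by
  classical
  have hop := opens_meas Y
  obtain ⟨G₀, hG₀⟩ := isCompact_univ.exists_bound_of_continuousOn hg.continuousOn
  obtain ⟨G, hG0, hG⟩ : ∃ G : ℝ, 0 ≤ G ∧ ∀ y, ‖g y‖ ≤ G :=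
    ⟨max G₀ 0, le_max_right _ _, fun y => (hG₀ y (Set.mem_univ _)).trans (le_max_left _ _)⟩
  -- the error
  obtain ⟨δ, hδ, hδG⟩ : ∃ δ : ℝ, 0 < δ ∧ 2 * δ * G ≤ ε := by
    refine ⟨ε / (2 * (G + 1)), by positivity, ?_⟩
    have h1 : 2 * (ε / (2 * (G + 1))) * G = ε * (G / (G + 1)) := by
      field_simp
    rw [h1]
    have h2 : G / (G + 1) ≤ 1 := by
      rw [div_le_one (by positivity)]
      linarith
    nlinarith
  let A : ℕ → Set (ProbabilityMeasure Y) := fun c =>
    {ν | ∃ z ∈ ⋂ j, (𝓕 c).GG j, ν ∈ DSet ((𝓕 c).Φ z) S g (𝓕 c).f ε}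
  have hA1 : ρ (⋃ c, A c) = 1 := by
    have h1 : (⋃ c, A c) = {ν | ∃ c, ∃ z ∈ ⋂ j, (𝓕 c).GG j, ν ∈ DSet ((𝓕 c).Φ z) S g (𝓕 c).f ε} := by
      ext ν
      rw [Set.mem_iUnion]
      rfl
    rw [h1]
    exact hρ
  obtain ⟨r, hr⟩ : ∃ r : ℕ, 1 - ENNReal.ofReal δ < ρ (⋃ c ∈ range r, A c) := by
    have hmono : Monotone fun r : ℕ => ⋃ c ∈ range r, A c := by
      intro a b hab x hx
      simp only [Set.mem_iUnion, mem_range, exists_prop] at hx ⊢
      obtain ⟨c, hc, hx⟩ := hx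
      exact ⟨c, lt_of_lt_of_le hc hab, hx⟩
    have h1 : ⋃ c, A c = ⋃ r : ℕ, ⋃ c ∈ range r, A c := by
      ext x
      simp only [Set.mem_iUnion, mem_range, exists_prop]
      exact ⟨fun ⟨c, hc⟩ => ⟨c + 1, c, Nat.lt_succ_self c, hc⟩, fun ⟨_, c, _, hc⟩ => ⟨c, hc⟩⟩
    have h2 := hmono.measure_iUnion (μ := ρ)
    rw [← h1, hA1] at h2
    have h3 : 1 - ENNReal.ofReal δ < ⨆ r : ℕ, ρ (⋃ c ∈ range r, A c) := by
      rw [← h2]
      exact ENNReal.sub_lt_self ENNReal.one_ne_top one_ne_zero (by simpa using hδ)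
    exact lt_iSup_iff.1 h3
  have hδr : ENNReal.ofReal δ / (r + 1 : ℕ) ≠ 0 := by
    rw [Ne, ENNReal.div_eq_zero_iff]
    push Not
    exact ⟨by simpa using hδ, ENNReal.natCast_ne_top _⟩
  have hcap := fun c => mxa_cap S hS g hg (𝓕 c) ε ρ (ENNReal.ofReal δ / (r + 1 : ℕ)) hδr
  choose D hDc hDv hDm A' hA'D hA'A hle using hcap
  -- the closed sets are large
  have hstep : ∀ c, ρ (toMeasurable ρ (A c) \ D c) ≤ ENNReal.ofReal δ / (r + 1 : ℕ) := by
    intro c
    have h1 : ρ (toMeasurable ρ (A c) ∩ D c) + ρ (toMeasurable ρ (A c) \ D c) =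
        ρ (toMeasurable ρ (A c)) := measure_inter_add_sdiff _ (hDc c).measurableSet
    have h2 : ρ (A' c) ≤ ρ (toMeasurable ρ (A c) ∩ D c) :=
      measure_mono (Set.subset_inter ((hA'A c).trans (subset_toMeasurable _ _)) (hA'D c))
    have h3 : ρ (toMeasurable ρ (A c) ∩ D c) + ρ (toMeasurable ρ (A c) \ D c) ≤
        ρ (toMeasurable ρ (A c) ∩ D c) + ENNReal.ofReal δ / (r + 1 : ℕ) := by
      rw [h1, measure_toMeasurable]
      exact (hle c).trans (add_le_add_left h2 _)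
    exact (ENNReal.add_le_add_iff_left (measure_ne_top _ _)).1 h3
  have hbig : 1 - ENNReal.ofReal (2 * δ) ≤ ρ (⋃ c ∈ range r, D c) := by
    have h1 : (⋃ c ∈ range r, A c) ⊆
        (⋃ c ∈ range r, D c) ∪ ⋃ c ∈ range r, (toMeasurable ρ (A c) \ D c) := by
      intro x hx
      simp only [Set.mem_union, Set.mem_iUnion, mem_range, exists_prop] at hx ⊢
      obtain ⟨c, hc, hx⟩ := hx
      by_cases hxD : x ∈ D c
      · exact Or.inl ⟨c, hc, hxD⟩
      · exact Or.inr ⟨c, hc, subset_toMeasurable _ _ hx, hxD⟩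
    have h2 : ρ (⋃ c ∈ range r, (toMeasurable ρ (A c) \ D c)) ≤ ENNReal.ofReal δ := by
      refine (measure_biUnion_finset_le _ _).trans ?_
      refine (Finset.sum_le_sum fun c _ => hstep c).trans ?_
      rw [Finset.sum_const, card_range, nsmul_eq_mul]
      refine (mul_le_mul_left (Nat.cast_le.2 (Nat.le_succ r)) _).trans ?_
      exact ENNReal.mul_div_le
    have h3 : ρ (⋃ c ∈ range r, A c) ≤ ρ (⋃ c ∈ range r, D c) + ENNReal.ofReal δ :=
      (measure_mono h1).trans ((measure_union_le _ _).trans (add_le_add_right h2 _))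
    have h4 : ENNReal.ofReal (2 * δ) = ENNReal.ofReal δ + ENNReal.ofReal δ := by
      rw [← ENNReal.ofReal_add hδ.le hδ.le, two_mul]
    rw [h4, ← tsub_tsub, tsub_le_iff_right]
    exact hr.le.trans h3
  -- the invariant measures
  obtain ⟨DI, hIc, hIv, hIm, hI⟩ := mxa_inv S hS g hg G hG
  have hIae : ∀ᵐ ν ∂ρ, ν ∈ DI := by
    filter_upwards [hinv] with ν hν
    exact hI ν hν
  obtain ⟨ν₁, hν₁, -⟩ := bary_mem ρ id measurable_id DI hIc hIv hIae
  -- the pieces
  let A₁ : ℕ → Set (ProbabilityMeasure Y) := fun i => if i < r then D i else Set.univ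
  have hA₁m : ∀ i, MeasurableSet (A₁ i) := by
    intro i
    simp only [A₁]
    split_ifs
    · exact (hDc i).measurableSet
    · exact MeasurableSet.univ
  let B : Fin (r + 1) → Set (ProbabilityMeasure Y) := fun i => disjointed A₁ i
  have hBm : ∀ i, MeasurableSet (B i) := fun i => MeasurableSet.disjointed hA₁m i
  have hdisj : Pairwise fun i j => Disjoint (B i) (B j) := fun i j hij =>
    disjoint_disjointed A₁ (fun hc => hij (Fin.ext hc))
  have hcov : ⋃ i, B i = Set.univ := by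
    rw [Set.eq_univ_iff_forall]
    intro x
    have h1 : x ∈ A₁ r := by
      simp only [A₁, lt_irrefl, if_false]
      exact Set.mem_univ x
    have h2 : x ∈ ⋃ i ≤ r, disjointed A₁ i := by
      have h3 : x ∈ partialSups A₁ r := le_partialSups A₁ r h1
      rw [← partialSups_disjointed, partialSups_eq_biUnion_range] at h3
      simp only [Set.mem_iUnion, mem_range, exists_prop] at h3 ⊢
      obtain ⟨i, hi, hx⟩ := h3
      exact ⟨i, by omega, hx⟩
    simp only [Set.mem_iUnion, exists_prop] at h2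
    obtain ⟨i, hi, hx⟩ := h2
    exact Set.mem_iUnion.2 ⟨⟨i, by omega⟩, hx⟩
  let D₁ : Fin (r + 1) → Set (ProbabilityMeasure Y) := fun i => if (i : ℕ) < r then D i else DI
  let e : Fin (r + 1) → ℝ := fun i => if (i : ℕ) < r then ε else G
  have hmain := mxa_main S hS g hg G hG ρ (r + 1) D₁ (by
      intro i
      simp only [D₁]
      split_ifs
      · exact hDc i
      · exact hIc) (by
      intro i
      simp only [D₁]
      split_ifs
      · exact hDv i
      · exact hIv) e (by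
      intro i ν hν
      simp only [D₁, e] at hν ⊢
      split_ifs at hν ⊢
      · exact hDm i ν hν
      · exact hIm ν hν) B hBm hdisj hcov (by
      intro i
      by_cases hi : (i : ℕ) < r
      · have h1 : D₁ i = D i := by simp only [D₁, if_pos hi]
        rw [h1]
        refine (ae_restrict_mem (hBm i)).mono fun ν hν => ?_
        have h2 := disjointed_subset A₁ i hν
        simp only [A₁, if_pos hi] at h2
        exact h2
      · have h1 : D₁ i = DI := by simp only [D₁, if_neg hi]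
        rw [h1]
        exact ae_restrict_of_ae hIae) ν₁ G (hIm ν₁ hν₁) ν₀ hb
  refine modl_mono S g _ ?_ hmain
  have hw1 : ∑ i, ρ.real (B i) = 1 := by
    have h4 := measureReal_iUnion_fintype (μ := ρ) hdisj hBm
    rw [hcov] at h4
    rw [← h4]
    simp
  have hlast : ρ.real (B (Fin.last r)) ≤ 2 * δ := by
    have h1 : B (Fin.last r) ⊆ (⋃ c ∈ range r, D c)ᶜ := by
      intro x hx hx'
      simp only [Set.mem_iUnion, mem_range, exists_prop] at hx'
      obtain ⟨c, hc, hxc⟩ := hx'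
      have h2 : x ∈ A₁ c := by
        simp only [A₁, if_pos hc]
        exact hxc
      have h3 : x ∈ disjointed A₁ r := hx
      rw [disjointed_apply] at h3
      refine h3.2 ?_
      have h4 : c ∈ Finset.Iio r := Finset.mem_Iio.2 hc
      exact (Finset.le_sup (f := A₁) h4) h2
    have h2 : ρ (⋃ c ∈ range r, D c)ᶜ ≤ ENNReal.ofReal (2 * δ) := by
      rw [prob_compl_eq_one_sub (Finset.measurableSet_biUnion _ fun c _ => (hDc c).measurableSet)]
      rw [tsub_le_iff_right]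
      rw [tsub_le_iff_right] at hbig
      rw [add_comm]
      exact hbig
    exact ENNReal.toReal_le_of_le_ofReal (by positivity) ((measure_mono h1).trans h2)
  rw [Fin.sum_univ_castSucc]
  rw [Fin.sum_univ_castSucc] at hw1
  have h1 : ∀ i : Fin r, ρ.real (B i.castSucc) * e i.castSucc = ρ.real (B i.castSucc) * ε := by
    intro i
    have h2 : e i.castSucc = ε := by
      simp only [e, Fin.val_castSucc, i.2, if_true]
    rw [h2]
  have h2 : e (Fin.last r) = G := by
    simp only [e, Fin.val_last, lt_irrefl, if_false]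
  rw [Finset.sum_congr rfl fun i _ => h1 i, ← Finset.sum_mul, h2]
  have h3 : 0 ≤ ρ.real (B (Fin.last r)) := measureReal_nonneg
  have h4 : ∑ i : Fin r, ρ.real (B i.castSucc) ≤ 1 := by linarith
  have h5 : (∑ i : Fin r, ρ.real (B i.castSucc)) * ε ≤ 1 * ε :=
    mul_le_mul_of_nonneg_right h4 hε.le
  have h6 : ρ.real (B (Fin.last r)) * G ≤ 2 * δ * G := mul_le_mul_of_nonneg_right hlast hG0
  linarith

end Pool.Agent.Lib.MP_3e612f_nt.NF
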